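import Mathlib

open PowerSeries Finset

set_option linter.unusedSectionVars false
set_option linter.unusedSimpArgs false

namespace Pool.Agent.Y296.Split

variable {R : Type*} [Ring R] [Algebra ℂ R]

/-- The formal exponential `exp (T a)` of an element `a` of a complex algebra. -/
noncomputable def ex (a : R) : PowerSeries R :=
  PowerSeries.mk fun n => ((n.factorial : ℂ)⁻¹) • a ^ n

@[simp] lemma coeff_ex (a : R) (n : ℕ) :
    coeff n (ex a) = ((n.factorial : ℂ)⁻¹) • a ^ n := by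
  simp [ex]

@[simp] lemma ex_zero : ex (0 : R) = 1 := by
  ext n
  rcases n with _ | n
  · simp
  · simp [PowerSeries.coeff_one]

/-- The Euler derivation. -/
noncomputable def D (f : PowerSeries R) : PowerSeries R :=
  PowerSeries.mk fun n => (n : ℂ) • coeff n f

@[simp] lemma coeff_D (f : PowerSeries R) (n : ℕ) : coeff n (D f) = (n : ℂ) • coeff n f := by
  simp [D]

lemma D_mul (f g : PowerSeries R) : D (f * g) = D f * g + f * D g := by
  ext n
  rw [coeff_D, map_add, coeff_mul, coeff_mul, coeff_mul, Finset.smul_sum, ← Finset.sum_add_distrib]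
  refine Finset.sum_congr rfl fun p hp => ?_
  rw [Finset.HasAntidiagonal.mem_antidiagonal] at hp
  rw [coeff_D, coeff_D, smul_mul_assoc, mul_smul_comm, ← add_smul]
  congr 1
  rw [← hp]; push_cast; ring

lemma D_add (f g : PowerSeries R) : D (f + g) = D f + D g := by
  ext n; simp

lemma D_ex (a : R) : D (ex a) = X * (C a * ex a) := by
  ext n
  rcases n with _ | n
  · simp
  · rw [coeff_D, coeff_ex, PowerSeries.coeff_succ_X_mul, PowerSeries.coeff_C_mul, coeff_ex,
      mul_smul_comm, ← pow_succ', smul_smul]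
    congr 1
    rw [Nat.factorial_succ]
    push_cast
    have h1 : ((n : ℂ) + 1) ≠ 0 := by exact_mod_cast Nat.succ_ne_zero n
    have h2 : ((n.factorial : ℂ)) ≠ 0 := by exact_mod_cast Nat.factorial_ne_zero n
    field_simp

lemma commute_C_ex (a : R) : C a * ex a = ex a * C a := by
  ext n
  rw [PowerSeries.coeff_C_mul, PowerSeries.coeff_mul_C, coeff_ex, mul_smul_comm, smul_mul_assoc,
    ← pow_succ, ← pow_succ']

lemma eq_of_D_eq_zero {f : PowerSeries R} (h : D f = 0) : f = C (coeff 0 f) := by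
  ext n
  rcases n with _ | n
  · simp
  · have h1 := congrArg (coeff (n + 1)) h
    rw [coeff_D, map_zero] at h1
    rw [PowerSeries.coeff_C, if_neg (Nat.succ_ne_zero n)]
    have h2 : (((n + 1 : ℕ)) : ℂ) ≠ 0 := by exact_mod_cast Nat.succ_ne_zero n
    have h3 := congrArg (fun z => (((n + 1 : ℕ)) : ℂ)⁻¹ • z) h1
    simp only [smul_smul, inv_mul_cancel₀ h2, one_smul, smul_zero] at h3
    exact h3

lemma ex_mul_ex_neg (a : R) : ex a * ex (-a) = 1 := by
  have h : D (ex a * ex (-a)) = 0 := by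
    rw [D_mul, D_ex, D_ex, commute_C_ex a]
    have hX : ∀ f : PowerSeries R, f * X = X * f := fun f => (PowerSeries.commute_X f).eq
    have : C (-a) = -(C a : PowerSeries R) := by simp
    rw [this]
    have e1 : ex a * (X * (-C a * ex (-a))) = - (X * (ex a * C a * ex (-a))) := by
      rw [← mul_assoc, hX, mul_assoc, neg_mul, mul_neg, mul_neg, mul_assoc]
    rw [e1]
    simp [mul_assoc]
  have h2 := eq_of_D_eq_zero h
  rw [h2]
  simp [PowerSeries.coeff_mul]

lemma ex_neg_mul_ex (a : R) : ex (-a) * ex a = 1 := by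
  have := ex_mul_ex_neg (-a)
  simpa using this

/-- `exp (T a)` as a unit. -/
noncomputable def exU (a : R) : (PowerSeries R)ˣ :=
  ⟨ex a, ex (-a), ex_mul_ex_neg a, ex_neg_mul_ex a⟩

@[simp] lemma val_exU (a : R) : ((exU a : (PowerSeries R)ˣ) : PowerSeries R) = ex a := rfl

@[simp] lemma val_inv_exU (a : R) : (((exU a)⁻¹ : (PowerSeries R)ˣ) : PowerSeries R) = ex (-a) := rfl

lemma inv_exU (a : R) : (exU a)⁻¹ = exU (-a) := by
  ext1; simp

@[simp] lemma exU_zero : exU (0 : R) = 1 := by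
  ext1; simp

/-! ### `f = g + d T^k` modulo `T^(k+1)` -/

/-- `f = g + d T^k` modulo `T^(k+1)`. -/
def Df (k : ℕ) (d : R) (f g : PowerSeries R) : Prop :=
  ∃ F : PowerSeries R, f = g + X ^ k * F ∧ coeff 0 F = d

lemma Df.refl (k : ℕ) (f : PowerSeries R) : Df k 0 f f := ⟨0, by simp, by simp⟩

lemma Df.trans {k : ℕ} {d d' : R} {f g h : PowerSeries R} (h1 : Df k d f g) (h2 : Df k d' g h) :
    Df k (d + d') f h := by
  obtain ⟨F, hF, hF0⟩ := h1
  obtain ⟨G, hG, hG0⟩ := h2
  refine ⟨F + G, ?_, by rw [map_add, hF0, hG0, add_comm]⟩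
  rw [hF, hG, mul_add]; abel

lemma Df.symm {k : ℕ} {d : R} {f g : PowerSeries R} (h1 : Df k d f g) : Df k (-d) g f := by
  obtain ⟨F, hF, hF0⟩ := h1
  refine ⟨-F, ?_, by rw [map_neg, hF0]⟩
  rw [hF, mul_neg]; abel

lemma Df.succ {k : ℕ} {d : R} {f g : PowerSeries R} (h1 : Df (k + 1) d f g) : Df k 0 f g := by
  obtain ⟨F, hF, hF0⟩ := h1
  exact ⟨X * F, by rw [hF, pow_succ, mul_assoc], by simp⟩

lemma Df.mul_left {k : ℕ} {d : R} {f g : PowerSeries R} (h1 : Df k d f g) (h : PowerSeries R) :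
    Df k (coeff 0 h * d) (h * f) (h * g) := by
  obtain ⟨F, hF, hF0⟩ := h1
  refine ⟨h * F, ?_, ?_⟩
  · rw [hF, mul_add, ← mul_assoc h, ((PowerSeries.commute_X_pow h k).eq), mul_assoc]
  · rw [PowerSeries.coeff_mul]; simp [hF0]

lemma Df.mul_right {k : ℕ} {d : R} {f g : PowerSeries R} (h1 : Df k d f g) (h : PowerSeries R) :
    Df k (d * coeff 0 h) (f * h) (g * h) := by
  obtain ⟨F, hF, hF0⟩ := h1
  refine ⟨F * h, ?_, ?_⟩
  · rw [hF, add_mul, mul_assoc]
  · rw [PowerSeries.coeff_mul]; simp [hF0]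

lemma Df.coeff_lt {k : ℕ} {d : R} {f g : PowerSeries R} (h1 : Df k d f g) {n : ℕ} (hn : n < k) :
    coeff n f = coeff n g := by
  obtain ⟨F, hF, hF0⟩ := h1
  rw [hF, map_add, PowerSeries.coeff_X_pow_mul', if_neg (by omega), add_zero]

lemma Df.coeff_eq {k : ℕ} {d : R} {f g : PowerSeries R} (h1 : Df k d f g) :
    coeff k f = coeff k g + d := by
  obtain ⟨F, hF, hF0⟩ := h1
  rw [hF, map_add, PowerSeries.coeff_X_pow_mul', if_pos le_rfl, Nat.sub_self, hF0]

lemma Df.of_coeff {k : ℕ} {d : R} {f g : PowerSeries R} (h : ∀ n < k, coeff n f = coeff n g)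
    (hk : coeff k f = coeff k g + d) : Df k d f g := by
  refine ⟨PowerSeries.mk fun n => coeff (n + k) (f - g), ?_, ?_⟩
  · ext n
    rw [map_add, PowerSeries.coeff_X_pow_mul']
    split_ifs with hn
    · rw [PowerSeries.coeff_mk, Nat.sub_add_cancel hn, map_sub]; abel
    · rw [add_zero]; exact h n (by omega)
  · rw [PowerSeries.coeff_mk, zero_add, map_sub, hk]; abel

lemma Df.to_succ {k : ℕ} {f g : PowerSeries R} (h : Df k 0 f g) :
    Df (k + 1) (coeff (k + 1) f - coeff (k + 1) g) f g := by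
  refine Df.of_coeff (fun n hn => ?_) (by abel)
  rcases Nat.lt_succ_iff_lt_or_eq.mp hn with h' | h'
  · exact h.coeff_lt h'
  · rw [h', h.coeff_eq, add_zero]

lemma Df.congr {k : ℕ} {d d' : R} {f g : PowerSeries R} (h : Df k d f g) (hd : d = d') :
    Df k d' f g := hd ▸ h

lemma coeff_zero_mul' (f g : PowerSeries R) : coeff 0 (f * g) = coeff 0 f * coeff 0 g := by
  rw [PowerSeries.coeff_mul]; simp

/-- Basic commutator lemma. -/
lemma conj_lemma {k : ℕ} (hk : 0 < k) {v w : R} {u e : (PowerSeries R)ˣ}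
    (hu : Df k v (u : PowerSeries R) 1) (he : Df 1 w (e : PowerSeries R) 1) :
    Df (k + 1) (v * w - w * v) ((u * e * u⁻¹ : (PowerSeries R)ˣ) : PowerSeries R) e := by
  obtain ⟨F, hF, hF0⟩ := hu
  obtain ⟨E, hE, hE0⟩ := he
  have hXF : ∀ (n : ℕ) (f : PowerSeries R), f * X ^ n = X ^ n * f :=
    fun n f => (PowerSeries.commute_X_pow f n).eq
  have hX : ∀ f : PowerSeries R, f * X = X * f := fun f => (PowerSeries.commute_X f).eq
  have h0 : coeff 0 ((u⁻¹ : (PowerSeries R)ˣ) : PowerSeries R) = 1 := by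
    have h1 : coeff 0 ((u : PowerSeries R) * ((u⁻¹ : (PowerSeries R)ˣ) : PowerSeries R)) = 1 := by
      simp
    rw [hF, add_mul, one_mul, map_add, mul_assoc, PowerSeries.coeff_X_pow_mul',
      if_neg (by omega), add_zero] at h1
    exact h1
  refine ⟨(F * E - E * F) * ((u⁻¹ : (PowerSeries R)ˣ) : PowerSeries R), ?_, ?_⟩
  · have key : (u : PowerSeries R) * (e : PowerSeries R)
        = (e : PowerSeries R) * (u : PowerSeries R) + X ^ (k + 1) * (F * E - E * F) := by
      rw [hF, hE]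
      rw [pow_one]
      have a1 : X ^ k * F * (X * E) = X ^ (k + 1) * (F * E) := by
        rw [mul_assoc, ← mul_assoc F, hX, pow_succ]; simp only [mul_assoc]
      have a2 : X * E * (X ^ k * F) = X ^ (k + 1) * (E * F) := by
        rw [mul_assoc, ← mul_assoc E, hXF, pow_succ']; simp only [mul_assoc]
      simp only [add_mul, mul_add, one_mul, mul_one, mul_sub, a1, a2]
      abel
    have e1 : ((u * e * u⁻¹ : (PowerSeries R)ˣ) : PowerSeries R)
        = (u : PowerSeries R) * (e : PowerSeries R) * ((u⁻¹ : (PowerSeries R)ˣ) : PowerSeries R) := by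
      rfl
    rw [e1, key, add_mul]
    congr 1
    · rw [mul_assoc]; simp
    · rw [mul_assoc]
  · rw [← hF0, ← hE0]
    rw [coeff_zero_mul', h0, mul_one, map_sub, coeff_zero_mul', coeff_zero_mul']

lemma Df_ex (a : R) : Df 1 a (ex a) 1 := by
  refine Df.of_coeff (fun n hn => ?_) ?_
  · have : n = 0 := by omega
    subst this; simp
  · simp [PowerSeries.coeff_one]

lemma Df.coeff_zero_one {k : ℕ} (hk : 0 < k) {d : R} {f : PowerSeries R} (h : Df k d f 1) :
    coeff 0 f = 1 := by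
  rw [h.coeff_lt hk]; simp

end Pool.Agent.Y296.Split
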