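import Pool.Agent.Y296.Split.Flow

open Finset Filter Topology Set Metric
open scoped NNReal

set_option linter.unusedSectionVars false
set_option linter.unusedSimpArgs false

namespace Pool.Agent.Y296.Split

variable {V : Type} [NormedAddCommGroup V] [NormedSpace ℂ V]

/-- the filter of points near `x₀` and small positive times. -/
abbrev Fl (x₀ : V) : Filter (V × ℝ) := 𝓝 x₀ ×ˢ 𝓝[>] (0 : ℝ)

/-- A time dependent relation which is admissible with expansion `P`. -/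
structure Adm (Rel : ℝ → V → V → Prop) (P : PowerSeries (Module.End ℂ (Sm V))) : Prop where
  near : ∀ x₀ : V, ∀ Q : V × ℝ → Prop, (∀ᶠ p in Fl x₀, Q p) →
    ∀ᶠ p in Fl x₀, ∀ z, Rel p.2 p.1 z → Q (z, p.2)
  exi : ∀ x₀ : V, ∀ᶠ p in Fl x₀, ∃ z, Rel p.2 p.1 z
  asym : ∀ (N : ℕ) (g : Sm V) (x₀ : V), ∃ C : ℝ, ∀ᶠ p in Fl x₀, ∀ z, Rel p.2 p.1 z →
    ‖(g : V → V) z - ∑ n ∈ range (N + 1), ((p.2 : ℂ) ^ n) • ((PowerSeries.coeff n P g : Sm V) : V → V) p.1‖
      ≤ C * p.2 ^ (N + 1)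

/-- The composition of relations. -/
def comp (Rel₁ Rel₂ : ℝ → V → V → Prop) : ℝ → V → V → Prop :=
  fun T x z => ∃ w, Rel₁ T x w ∧ Rel₂ T w z

lemma eventually_pos (x₀ : V) : ∀ᶠ p in Fl x₀, 0 < p.2 := by
  have : ∀ᶠ T in 𝓝[>] (0 : ℝ), 0 < T := self_mem_nhdsWithin
  exact this.prod_inr _

lemma eventually_lt (x₀ : V) {δ : ℝ} (hδ : 0 < δ) : ∀ᶠ p in Fl x₀, p.2 < δ := by
  have : ∀ᶠ T in 𝓝[>] (0 : ℝ), T < δ := nhdsWithin_le_nhds (Iio_mem_nhds hδ)
  exact this.prod_inr _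

lemma Adm.comp {Rel₁ Rel₂ : ℝ → V → V → Prop} {P₁ P₂ : PowerSeries (Module.End ℂ (Sm V))}
    (h₁ : Adm Rel₁ P₁) (h₂ : Adm Rel₂ P₂) : Adm (comp Rel₁ Rel₂) (P₁ * P₂) := by
  refine ⟨?_, ?_, ?_⟩
  · intro x₀ Q hQ
    have := h₁.near x₀ _ (h₂.near x₀ Q hQ)
    filter_upwards [this] with p hp z hz
    obtain ⟨w, hw, hz⟩ := hz
    exact hp w hw z hz
  · intro x₀
    have := h₁.near x₀ _ (h₂.exi x₀)
    filter_upwards [this, h₁.exi x₀] with p hp hw
    obtain ⟨w, hw⟩ := hw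
    obtain ⟨z, hz⟩ := hp w hw
    exact ⟨z, w, hw, hz⟩
  · intro N g x₀
    obtain ⟨C₂, hC₂⟩ := h₂.asym N g x₀
    have h := fun n : ℕ => h₁.asym (N - n) (PowerSeries.coeff n P₂ g) x₀
    choose C₁ hC₁ using h
    have hC₁' : ∀ᶠ p in Fl x₀, ∀ n ∈ range (N + 1), ∀ w, Rel₁ p.2 p.1 w →
        ‖((PowerSeries.coeff n P₂ g : Sm V) : V → V) w - ∑ m ∈ range (N - n + 1),
          ((p.2 : ℂ) ^ m) • ((PowerSeries.coeff m P₁ (PowerSeries.coeff n P₂ g) : Sm V) : V → V) p.1‖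
        ≤ C₁ n * p.2 ^ (N - n + 1) :=
      (Filter.eventually_all_finset _).2 fun n _ => hC₁ n
    have hnear := h₁.near x₀ _ hC₂
    refine ⟨C₂ + ∑ n ∈ range (N + 1), C₁ n, ?_⟩
    filter_upwards [hC₁', hnear, eventually_pos x₀] with p hp1 hp2 hpos z hz
    obtain ⟨w, hw, hz⟩ := hz
    have e2 := hp2 w hw z hz
    have e1 := fun n hn => hp1 n hn w hw
    have hsum : ∑ k ∈ range (N + 1), ((p.2 : ℂ) ^ k) • ((PowerSeries.coeff k (P₁ * P₂) g : Sm V) : V → V) p.1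
        = ∑ n ∈ range (N + 1), ((p.2 : ℂ) ^ n) • ∑ m ∈ range (N - n + 1),
          ((p.2 : ℂ) ^ m) • ((PowerSeries.coeff m P₁ (PowerSeries.coeff n P₂ g) : Sm V) : V → V) p.1 := by
      have s1 : ∀ k, ((p.2 : ℂ) ^ k) • ((PowerSeries.coeff k (P₁ * P₂) g : Sm V) : V → V) p.1
          = ∑ n ∈ range (k + 1), ((p.2 : ℂ) ^ n) • ((p.2 : ℂ) ^ (k - n)) •
            ((PowerSeries.coeff (k - n) P₁ (PowerSeries.coeff n P₂ g) : Sm V) : V → V) p.1 := by
        intro k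
        rw [PowerSeries.coeff_mul]
        rw [← Finset.Nat.sum_antidiagonal_swap, Finset.Nat.sum_antidiagonal_eq_sum_range_succ_mk]
        rw [LinearMap.sum_apply]
        have : ((∑ c ∈ range k.succ, ((PowerSeries.coeff (k - c) P₁ * PowerSeries.coeff c P₂) g) : Sm V) : V → V) p.1
            = ∑ c ∈ range k.succ, (((PowerSeries.coeff (k - c) P₁ * PowerSeries.coeff c P₂) g : Sm V) : V → V) p.1 := by
          rw [Submodule.coe_sum, Finset.sum_apply]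
        simp only [Prod.swap_prod_mk]
        rw [this, Finset.smul_sum]
        refine Finset.sum_congr rfl fun n hn => ?_
        rw [smul_smul, ← pow_add, Nat.add_sub_cancel' (Nat.lt_succ_iff.1 (Finset.mem_range.1 hn))]
        rfl
      rw [Finset.sum_congr rfl fun k _ => s1 k]
      have s2 := Finset.sum_range_diag_flip (N + 1) (fun n m => ((p.2 : ℂ) ^ n) • ((p.2 : ℂ) ^ m) •
            ((PowerSeries.coeff m P₁ (PowerSeries.coeff n P₂ g) : Sm V) : V → V) p.1)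
      rw [s2]
      refine Finset.sum_congr rfl fun n hn => ?_
      rw [Finset.smul_sum]
      have : N + 1 - n = N - n + 1 := by
        have := Finset.mem_range.1 hn
        omega
      rw [this]
    rw [hsum]
    have hsplit : (g : V → V) z - ∑ n ∈ range (N + 1), ((p.2 : ℂ) ^ n) • ∑ m ∈ range (N - n + 1),
          ((p.2 : ℂ) ^ m) • ((PowerSeries.coeff m P₁ (PowerSeries.coeff n P₂ g) : Sm V) : V → V) p.1
        = ((g : V → V) z - ∑ n ∈ range (N + 1), ((p.2 : ℂ) ^ n) • ((PowerSeries.coeff n P₂ g : Sm V) : V → V) w)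
          + ∑ n ∈ range (N + 1), ((p.2 : ℂ) ^ n) • (((PowerSeries.coeff n P₂ g : Sm V) : V → V) w
            - ∑ m ∈ range (N - n + 1),
          ((p.2 : ℂ) ^ m) • ((PowerSeries.coeff m P₁ (PowerSeries.coeff n P₂ g) : Sm V) : V → V) p.1) := by
      simp only [smul_sub, Finset.sum_sub_distrib]
      abel
    rw [hsplit]
    refine (norm_add_le _ _).trans ?_
    rw [add_mul]
    refine add_le_add e2 ?_
    refine (norm_sum_le _ _).trans ?_
    rw [Finset.sum_mul]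
    refine Finset.sum_le_sum fun n hn => ?_
    rw [norm_smul, norm_pow, Complex.norm_real, Real.norm_eq_abs, abs_of_pos hpos]
    have h3 := mul_le_mul_of_nonneg_left (e1 n hn) (pow_nonneg hpos.le n)
    refine h3.trans (le_of_eq ?_)
    have h4 : n + (N - n + 1) = N + 1 := by
      have := Finset.mem_range.1 hn
      omega
    rw [← h4, pow_add]; ring

lemma Adm.one : Adm (fun (_ : ℝ) (x z : V) => z = x) 1 := by
  refine ⟨?_, ?_, ?_⟩
  · intro x₀ Q hQ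
    filter_upwards [hQ] with p hp z hz
    subst hz; exact hp
  · intro x₀
    exact Eventually.of_forall fun p => ⟨p.1, rfl⟩
  · intro N g x₀
    refine ⟨0, Eventually.of_forall ?_⟩
    rintro p z rfl
    rw [Finset.sum_range_succ']
    simp [PowerSeries.coeff_one]

lemma near_flow {f : V → V} (hf : ContDiff ℂ (⊤ : ℕ∞) f) (c : ℂ) (x₀ : V) {r : ℝ} (hr : 0 < r) :
    ∃ ρ > 0, ∃ δ > 0, ∀ x ∈ closedBall x₀ ρ, ∀ T : ℝ, 0 < T → T < δ → ∀ y : ℝ → V, y 0 = x →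
      (∀ s ∈ Icc (0 : ℝ) 1, HasDerivWithinAt y (((T : ℂ) * c) • f (y s)) (Icc (0 : ℝ) 1) s) →
      ∀ s ∈ Icc (0 : ℝ) 1, y s ∈ closedBall x₀ r := by
  -- local bound
  have hcont : Continuous f := hf.continuous
  have hb : ∀ᶠ x in 𝓝 x₀, ‖f x‖ < ‖f x₀‖ + 1 :=
    (hcont.norm.tendsto x₀).eventually (gt_mem_nhds (by linarith))
  obtain ⟨r₁, hr₁, hb'⟩ := Metric.eventually_nhds_iff_ball.1 hb
  set r₂ := min r (r₁ / 2) with hr₂
  have hr₂pos : 0 < r₂ := lt_min hr (by linarith)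
  set M := ‖f x₀‖ + 1 with hM
  have hMpos : 0 < M := by positivity
  refine ⟨r₂ / 2, by linarith, r₂ / 2 / (M * (‖c‖ + 1)), by positivity, ?_⟩
  intro x hx T hT hTδ y hy0 hy s hs
  have hM' : ∀ x ∈ closedBall x₀ r₂, ‖f x‖ ≤ M := by
    intro x hx
    refine (hb' x ?_).le
    rw [mem_ball]
    refine lt_of_le_of_lt (mem_closedBall.1 hx) ?_
    exact lt_of_le_of_lt (min_le_right _ _) (by linarith)
  have h1 := stay hMpos.le hM' (ρ := r₂ / 2) (τ := (T : ℂ) * c) ?_ hx hy0 hy s hs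
  · exact closedBall_subset_closedBall (min_le_left _ _) h1
  · rw [norm_mul, Complex.norm_real, Real.norm_eq_abs, abs_of_pos hT]
    rw [lt_div_iff₀ (by positivity)] at hTδ
    have : T * ‖c‖ * M ≤ T * (M * (‖c‖ + 1)) := by nlinarith
    linarith

variable [CompleteSpace V]

lemma exi_flow {f : V → V} (hf : ContDiff ℂ (⊤ : ℕ∞) f) (c : ℂ) (x₀ : V) :
    ∃ ρ > 0, ∃ δ > 0, ∀ x ∈ closedBall x₀ ρ, ∀ T : ℝ, 0 < T → T < δ → ∃ z, IsFlow ((T : ℂ) * c) f x z := by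
  have hR : ContDiffAt ℝ 1 f x₀ := ((hf.restrict_scalars ℝ).contDiffAt).of_le (by simp)
  obtain ⟨K, U, hU, hK⟩ := hR.exists_lipschitzOnWith
  have hcont : Continuous f := hf.continuous
  have hb : ∀ᶠ x in 𝓝 x₀, ‖f x‖ < ‖f x₀‖ + 1 :=
    (hcont.norm.tendsto x₀).eventually (gt_mem_nhds (by linarith))
  obtain ⟨r₁, hr₁, hb'⟩ := Metric.eventually_nhds_iff_ball.1 (hb.and hU)
  set a : ℝ := r₁ / 2 with ha
  have hapos : 0 < a := by positivity
  set M := ‖f x₀‖ + 1 with hM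
  have hMpos : 0 < M := by positivity
  have hsub : closedBall x₀ a ⊆ ball x₀ r₁ := closedBall_subset_ball (by rw [ha]; linarith)
  refine ⟨a / 2, by positivity, a / 2 / (M * (‖c‖ + 1)), by positivity, ?_⟩
  intro x hx T hT hTδ
  set τ : ℂ := (T : ℂ) * c with hτ
  have hτn : ‖τ‖ = T * ‖c‖ := by
    rw [hτ, norm_mul, Complex.norm_real, Real.norm_eq_abs, abs_of_pos hT]
  have hPL : IsPicardLindelof (fun _ : ℝ => fun x => τ • f x) (tmin := 0) (tmax := 1)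
      ⟨0, by simp⟩ x₀ ⟨a, hapos.le⟩ ⟨a / 2, by positivity⟩ ⟨‖τ‖ * M, by positivity⟩ (‖τ‖₊ * K) := by
    refine IsPicardLindelof.of_time_independent ?_ ?_ ?_
    · intro x hx
      rw [norm_smul]
      exact mul_le_mul_of_nonneg_left (hb' x (hsub hx)).1.le (norm_nonneg _)
    · have hK' : LipschitzOnWith K f (closedBall x₀ a) := hK.mono fun x hx => (hb' x (hsub hx)).2
      have h1 : LipschitzWith ‖τ‖₊ (fun v : V => τ • v) := lipschitzWith_smul τ
      exact h1.comp_lipschitzOnWith hK'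
    · simp only [sub_zero, sub_self]
      rw [max_eq_left (by norm_num)]
      rw [lt_div_iff₀ (by positivity)] at hTδ
      show ‖τ‖ * M * 1 ≤ a - a / 2
      rw [hτn]
      have : T * ‖c‖ * M ≤ T * (M * (‖c‖ + 1)) := by nlinarith
      linarith
  obtain ⟨α, hα0, hα⟩ := hPL.exists_eq_forall_mem_Icc_hasDerivWithinAt (x := x) hx
  exact ⟨α 1, α, hα0, hα, rfl⟩

/-- A single flow is admissible. -/
lemma Adm.flow {f : V → V} (hf : ContDiff ℂ (⊤ : ℕ∞) f) (c : ℂ) :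
    Adm (fun T x z => IsFlow ((T : ℂ) * c) f x z) (ex (c • LD f hf)) := by
  have tofl : ∀ x₀ : V, ∀ Q : V × ℝ → Prop, (∃ ρ > 0, ∃ δ > 0, ∀ x ∈ closedBall x₀ ρ, ∀ T : ℝ,
      0 < T → T < δ → Q (x, T)) → ∀ᶠ p in Fl x₀, Q p := by
    rintro x₀ Q ⟨ρ, hρ, δ, hδ, h⟩
    have h1 : ∀ᶠ x in 𝓝 x₀, x ∈ closedBall x₀ ρ := closedBall_mem_nhds x₀ hρ
    filter_upwards [h1.prod_inl (𝓝[>] (0 : ℝ)), eventually_pos x₀, eventually_lt x₀ hδ] with p h1 h2 h3
    exact h p.1 h1 p.2 h2 h3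
  refine ⟨?_, ?_, ?_⟩
  · intro x₀ Q hQ
    obtain ⟨Q1, hQ1, Q2, hQ2, hQQ⟩ := Filter.eventually_prod_iff.1 hQ
    obtain ⟨r, hr, hball⟩ := Metric.nhds_basis_closedBall.eventually_iff.1 hQ1
    obtain ⟨ρ, hρ, δ, hδ, h⟩ := near_flow hf c x₀ hr
    have h1 : ∀ᶠ x in 𝓝 x₀, x ∈ closedBall x₀ ρ := closedBall_mem_nhds x₀ hρ
    filter_upwards [h1.prod_inl (𝓝[>] (0 : ℝ)), hQ2.prod_inr (𝓝 x₀), eventually_pos x₀,
      eventually_lt x₀ hδ] with p h1 h2 h3 h4 z hz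
    obtain ⟨y, hy0, hy, hy1⟩ := hz
    have := h p.1 h1 p.2 h3 h4 y hy0 hy 1 (by simp)
    rw [hy1] at this
    exact hQQ (hball this) h2
  · intro x₀
    exact tofl x₀ _ (exi_flow hf c x₀)
  · intro N g x₀
    -- local bound for the remainder
    set G : Sm V := ((LD f hf) ^ (N + 1)) g with hG
    have hGc : ContDiff ℂ (⊤ : ℕ∞) (G : V → V) := G.2
    have hcont : Continuous (G : V → V) := hGc.continuous
    have hb : ∀ᶠ x in 𝓝 x₀, ‖(G : V → V) x‖ < ‖(G : V → V) x₀‖ + 1 :=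
      (hcont.norm.tendsto x₀).eventually (gt_mem_nhds (by linarith))
    obtain ⟨r, hr, hball⟩ := Metric.nhds_basis_closedBall.eventually_iff.1 hb
    obtain ⟨ρ, hρ, δ, hδ, h⟩ := near_flow hf c x₀ hr
    set M := ‖(G : V → V) x₀‖ + 1 with hM
    have hMpos : 0 < M := by positivity
    refine ⟨M * ‖c‖ ^ (N + 1), tofl x₀ _ ⟨ρ, hρ, δ, hδ, ?_⟩⟩
    intro x hx T hT hTδ z hz
    obtain ⟨y, hy0, hy, hy1⟩ := hz
    have hin := h x hx T hT hTδ y hy0 hy
    have key := taylor_curve hf hy0 hy hMpos.le (N + 1) g (fun s hs => (hball (hin s hs)).le) 1 (by simp)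
    rw [hy1] at key
    have e1 : ∀ n, ((T : ℂ) ^ n) • ((PowerSeries.coeff n (ex (c • LD f hf)) g : Sm V) : V → V) x
        = ((((1 : ℝ) : ℂ) * ((T : ℂ) * c)) ^ n / (n.factorial : ℂ)) • ((LD f hf ^ n) g : V → V) x := by
      intro n
      have e0 : PowerSeries.coeff n (ex (c • LD f hf)) = ((n.factorial : ℂ)⁻¹) • (c ^ n • LD f hf ^ n) := by
        rw [← smul_pow]; exact coeff_ex _ _
      rw [e0]
      show ((T : ℂ) ^ n) • ((n.factorial : ℂ)⁻¹ • (c ^ n • ((LD f hf ^ n) g : V → V) x)) = _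
      rw [smul_smul, smul_smul]
      congr 1
      push_cast
      rw [one_mul, mul_pow]
      ring
    simp only [e1]
    refine key.trans (le_of_eq ?_)
    rw [norm_mul, Complex.norm_real, Real.norm_eq_abs, abs_of_pos hT, mul_pow]
    ring

end Pool.Agent.Y296.Split
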