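import Pool.Agent.Y296.Split.Strict

open PowerSeries Finset Filter Topology
open scoped PowerSeries.WithPiTopology

set_option linter.unusedSectionVars false
set_option linter.unusedSimpArgs false

namespace Pool.Agent.Y296.Split

variable {R : Type*} [Ring R] [Algebra ℂ R] {x y : R}
variable [TopologicalSpace R] [IsTopologicalRing R] [ContinuousSMul ℂ R] [T2Space R]

omit [IsTopologicalRing R] [T2Space R] in
lemma contSMulReal : ContinuousSMul ℝ R := by
  refine ⟨?_⟩
  have h : Continuous fun p : ℝ × R => ((p.1 : ℝ) : ℂ) • p.2 :=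
    (Complex.continuous_ofReal.comp continuous_fst).smul continuous_snd
  exact h

variable (x y) in
/-- the set of leading errors of strict methods. -/
def KK (k : ℕ) : Set (L x y k) :=
  {a | ∃ l, Str l ∧ Df (k + 1) (a : R) (ev x y l : PowerSeries R) (ex (x + y))}

lemma App_of_Df {k : ℕ} {a : R} {u : PowerSeries R} (h : Df k a u (ex (x + y))) :
    App x y k 1 a u := by
  unfold App; simpa using h

lemma Df_of_App {k : ℕ} {a : R} {u : PowerSeries R} (h : App x y k 1 a u) :
    Df k a u (ex (x + y)) := by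
  unfold App at h; simpa using h

lemma good_xy : Good x y (exU (x + y)) := by
  have := Good.ex (x := x) (y := y) (α := 1) (β := 1)
  simpa using this

/-- One correction step. -/
lemma step {m : ℕ} (hd : Dense (KK x y (m + 1))) {li : List (ℂ × ℂ)}
    (hlim : coeff (m + 2) (ev x y li : PowerSeries R) = coeff (m + 2) (ex (x + y)))
    (h : ∃ l : ℕ → List (ℂ × ℂ), (∀ j, Str (l j)) ∧
      (∀ j, Df (m + 1) 0 (ev x y (l j) : PowerSeries R) (ex (x + y))) ∧
      Tendsto (fun j => (ev x y (l j) : PowerSeries R)) atTop (𝓝 (ev x y li : PowerSeries R))) :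
    ∃ l : ℕ → List (ℂ × ℂ), (∀ j, Str (l j)) ∧
      (∀ j, Df (m + 2) 0 (ev x y (l j) : PowerSeries R) (ex (x + y))) ∧
      Tendsto (fun j => (ev x y (l j) : PowerSeries R)) atTop (𝓝 (ev x y li : PowerSeries R)) := by
  have : ContinuousSMul ℝ R := contSMulReal
  obtain ⟨l, hl, hDf, hT⟩ := h
  obtain ⟨n, b, a0, lam, hb, ha0, hlam, hsum⟩ := cone_data hd
  choose s hs hs' using hb
  obtain ⟨s0, hs0, hs0'⟩ := ha0
  -- errors
  have hmem : ∀ j, coeff (m + 2) (ev x y (l j) : PowerSeries R) - coeff (m + 2) (ex (x + y))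
      ∈ L x y (m + 1) := by
    intro j
    have h1 := (hDf j).to_succ
    exact (Good.ev (x := x) (y := y) (l j)).sub_mem good_xy (k := m + 1)
      fun n hn => h1.coeff_lt (by omega)
  let v : ℕ → L x y (m + 1) := fun j => ⟨_, hmem j⟩
  have hv : Tendsto v atTop (𝓝 0) := by
    rw [tendsto_subtype_rng]
    have h1 := ((PowerSeries.WithPiTopology.tendsto_iff_coeff_tendsto R _ _ _).1 hT) (m + 2)
    have h2 := h1.sub_const (coeff (m + 2) (ex (x + y)))
    rw [hlim, sub_self] at h2
    exact h2
  have hσ : ∀ i, Tendsto (fun j => b.coord i (v j)) atTop (𝓝 0) := by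
    intro i
    have hc : Continuous (b.coord i) := LinearMap.continuous_of_finiteDimensional _
    have := (hc.tendsto 0).comp hv
    rw [map_zero] at this
    exact this
  set θ : ℕ → ℝ := fun j => ∑ i, |b.coord i (v j)| / lam i + 1 / ((j : ℝ) + 1) with hθ
  have hθ0 : Tendsto θ atTop (𝓝 0) := by
    have h1 : Tendsto (fun j => ∑ i, |b.coord i (v j)| / lam i) atTop (𝓝 (∑ i : Fin n, |(0:ℝ)| / lam i)) :=
      tendsto_finsetSum _ fun i _ => ((hσ i).abs).div_const _
    have h2 := h1.add (tendsto_one_div_add_atTop_nhds_zero_nat (𝕜 := ℝ))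
    have h3 : (∑ i : Fin n, |(0:ℝ)| / lam i) + 0 = 0 := by simp
    rw [h3] at h2
    exact h2
  have hθpos : ∀ j, 0 < θ j := by
    intro j
    have h1 : 0 ≤ ∑ i, |b.coord i (v j)| / lam i :=
      Finset.sum_nonneg fun i _ => div_nonneg (abs_nonneg _) (hlam i).le
    have h2 : (0:ℝ) < 1 / ((j : ℝ) + 1) := by positivity
    simp only [hθ]; linarith
  set κ : ℕ → Fin n → ℝ := fun j i => -(b.coord i (v j)) + θ j * lam i with hκ
  have hκpos : ∀ j i, 0 < κ j i := by
    intro j i
    have h1 : |b.coord i (v j)| / lam i ≤ ∑ i, |b.coord i (v j)| / lam i :=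
      Finset.single_le_sum (f := fun i => |b.coord i (v j)| / lam i)
        (fun i _ => div_nonneg (abs_nonneg _) (hlam i).le) (Finset.mem_univ i)
    have h2 : (0:ℝ) < 1 / ((j : ℝ) + 1) := by positivity
    have h3 : |b.coord i (v j)| / lam i < θ j := by simp only [hθ]; linarith
    have h4 : |b.coord i (v j)| < θ j * lam i := by
      rwa [div_lt_iff₀ (hlam i)] at h3
    have h5 := le_abs_self (b.coord i (v j))
    simp only [hκ]; linarith
  have hκ0 : ∀ i, Tendsto (fun j => κ j i) atTop (𝓝 0) := by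
    intro i
    have := ((hσ i).neg).add (hθ0.mul_const (lam i))
    rw [neg_zero, zero_mul, add_zero] at this
    exact this
  have hrel : ∀ j, v j + ∑ i, κ j i • b i + θ j • a0 = 0 := by
    intro j
    have h1 : ∑ i, κ j i • b i = -(v j) + θ j • ∑ i, lam i • b i := by
      have h2 : ∑ i, (b.coord i (v j)) • b i = v j := b.sum_repr (v j)
      simp only [hκ, add_smul, Finset.sum_add_distrib, neg_smul, Finset.sum_neg_distrib, h2,
        Finset.smul_sum, mul_smul]
    rw [h1, eq_neg_of_add_eq_zero_right hsum, smul_neg]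
    abel
  -- roots
  have hm2 : (m + 2) ≠ 0 := by omega
  set t : ℕ → Fin n → ℝ := fun j i => (κ j i) ^ ((1:ℝ) / ((m + 2 : ℕ) : ℝ)) with ht
  set t0 : ℕ → ℝ := fun j => (θ j) ^ ((1:ℝ) / ((m + 2 : ℕ) : ℝ)) with ht0
  have htpow : ∀ j i, (t j i) ^ (m + 2) = κ j i := by
    intro j i
    simp only [ht]
    rw [one_div, Real.rpow_inv_natCast_pow (hκpos j i).le hm2]
  have ht0pow : ∀ j, (t0 j) ^ (m + 2) = θ j := by
    intro j
    simp only [ht0]
    rw [one_div, Real.rpow_inv_natCast_pow (hθpos j).le hm2]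
  have htpos : ∀ j i, 0 < t j i := fun j i => Real.rpow_pos_of_pos (hκpos j i) _
  have ht0pos : ∀ j, 0 < t0 j := fun j => Real.rpow_pos_of_pos (hθpos j) _
  have hexp : (0:ℝ) < (1:ℝ) / ((m + 2 : ℕ) : ℝ) := by positivity
  have htlim : ∀ i, Tendsto (fun j => t j i) atTop (𝓝 0) := by
    intro i
    have := (hκ0 i).rpow_const (p := (1:ℝ) / ((m + 2 : ℕ) : ℝ)) (Or.inr hexp.le)
    rw [Real.zero_rpow hexp.ne'] at this
    exact this
  have ht0lim : Tendsto t0 atTop (𝓝 0) := by
    have := hθ0.rpow_const (p := (1:ℝ) / ((m + 2 : ℕ) : ℝ)) (Or.inr hexp.le)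
    rw [Real.zero_rpow hexp.ne'] at this
    exact this
  set Θ : ℕ → ℝ := fun j => 1 + ∑ i, t j i + t0 j with hΘ
  have hΘpos : ∀ j, 0 < Θ j := by
    intro j
    have : 0 ≤ ∑ i, t j i := Finset.sum_nonneg fun i _ => (htpos j i).le
    have := ht0pos j
    simp only [hΘ]; linarith
  have hΘlim : Tendsto Θ atTop (𝓝 1) := by
    have h1 : Tendsto (fun j => ∑ i, t j i) atTop (𝓝 (∑ i : Fin n, (0:ℝ))) :=
      tendsto_finsetSum _ fun i _ => htlim i
    have := (tendsto_const_nhds (x := (1:ℝ))).add h1 |>.add ht0lim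
    simpa using this
  set l' : ℕ → List (ℂ × ℂ) := fun j => l j ++ comb n (t j) s ++ sc (t0 j : ℂ) s0 with hl'
  refine ⟨fun j => sc (((1 / Θ j : ℝ)) : ℂ) (l' j), ?_, ?_, ?_⟩
  · intro j
    refine Str.sc ?_ (by have := hΘpos j; positivity)
    refine Str.append (Str.append (hl j) (pos_comb (htpos j) hs)) (hs0.sc (ht0pos j)).2
  · intro j
    have a1 : App x y (m + 2) 1 ((v j : L x y (m + 1)) : R) (ev x y (l j) : PowerSeries R) :=
      App_of_Df ((hDf j).to_succ)
    have a2 := App_comb (x := x) (y := y) (m + 2) (by omega) n (t j) s (fun i => ((b i : L x y (m + 1)) : R))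
      (fun i => App_of_Df (hs' i))
    have a3 : App x y (m + 2) (t0 j * 1) ((t0 j ^ (m + 2) : ℝ) • (a0 : R)) (ev x y (sc (t0 j : ℂ) s0) : PowerSeries R) := by
      rw [ev_sc]
      exact (App_of_Df hs0').dil (t0 j)
    have a4 := ((a1.mul (by omega) a2).mul (by omega) a3).dil (1 / Θ j)
    have hz : ((v j : L x y (m + 1)) : R) + ∑ i, ((t j i ^ (m + 2) : ℝ)) • ((b i : L x y (m + 1)) : R)
        + (t0 j ^ (m + 2) : ℝ) • (a0 : R) = 0 := by
      have := congrArg (fun z : L x y (m + 1) => (z : R)) (hrel j)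
      simpa [htpow, ht0pow] using this
    have a5 : App x y (m + 2) 1 0 (Split.dil ((1 / Θ j : ℝ) : ℂ) ((ev x y (l j) : PowerSeries R)
        * (ev x y (comb n (t j) s) : PowerSeries R) * (ev x y (sc (t0 j : ℂ) s0) : PowerSeries R))) := by
      refine a4.congr ?_ ?_
      · rw [mul_one, one_div]
        exact inv_mul_cancel₀ (hΘpos j).ne'
      · rw [hz, smul_zero]
    have a6 := Df_of_App a5
    rw [ev_sc]
    have e1 : (ev x y (l' j) : PowerSeries R) = (ev x y (l j) : PowerSeries R)
        * (ev x y (comb n (t j) s) : PowerSeries R) * (ev x y (sc (t0 j : ℂ) s0) : PowerSeries R) := by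
      simp only [hl', ev_append, Units.val_mul]
    rw [e1]
    exact a6
  · have e1 : ∀ j, (ev x y (sc (((1 / Θ j : ℝ)) : ℂ) (l' j)) : PowerSeries R)
        = Split.dil ((1 / Θ j : ℝ) : ℂ) ((ev x y (l j) : PowerSeries R)
        * (ev x y (comb n (t j) s) : PowerSeries R) * Split.dil (t0 j : ℂ) (ev x y s0 : PowerSeries R)) := by
      intro j
      rw [ev_sc]
      simp only [hl', ev_append, Units.val_mul, ev_sc]
    simp only [e1]
    have b1 : Tendsto (fun j => ((1 / Θ j : ℝ) : ℂ)) atTop (𝓝 ((1 : ℝ) : ℂ)) := by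
      have : Tendsto (fun j => 1 / Θ j) atTop (𝓝 (1 / 1)) := (tendsto_const_nhds).div hΘlim one_ne_zero
      rw [one_div_one] at this
      exact (Complex.continuous_ofReal.tendsto 1).comp this
    have b2 := tendsto_comb (x := x) (y := y) n htlim s
    have b3 : Tendsto (fun j => ((t0 j : ℝ) : ℂ)) atTop (𝓝 ((0 : ℝ) : ℂ)) :=
      (Complex.continuous_ofReal.tendsto 0).comp ht0lim
    have b4 := tendsto_dil b3 (tendsto_const_nhds (x := (ev x y s0 : PowerSeries R)) (f := (atTop : Filter ℕ)))
    have b5 : dil ((0 : ℝ) : ℂ) (ev x y s0 : PowerSeries R) = 1 := by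
      ext m
      rw [coeff_dil, PowerSeries.coeff_one]
      split_ifs with h
      · subst h; rw [(Good.ev s0).1]; simp
      · simp [h]
    rw [b5] at b4
    have b6 := tendsto_dil b1 ((hT.mul b2).mul b4)
    have b7 : dil ((1 : ℝ) : ℂ) ((ev x y li : PowerSeries R) * 1 * 1) = (ev x y li : PowerSeries R) := by
      ext m
      rw [coeff_dil]; simp
    rw [b7] at b6
    exact b6

theorem dense_KK : ∀ k : ℕ, 1 ≤ k → Dense (KK x y k) := by
  intro k
  induction k using Nat.strong_induction_on with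
  | _ k ih =>
    intro hk E
    obtain ⟨k', rfl⟩ : ∃ k', k = k' + 1 := ⟨k - 1, by omega⟩
    obtain ⟨_, _, _, -, -, -, -, hmain⟩ := main_closed (x := x) (y := y) k'
    obtain ⟨A, B, C, ⟨la, hla, rfl⟩, ⟨lb, hlb, rfl⟩, ⟨lc, hlc, rfl⟩, hE⟩ := hmain E E.2
    set li : List (ℂ × ℂ) := la ++ [((1:ℂ), (0:ℂ))] ++ lb ++ [((0:ℂ), (1:ℂ))] ++ lc with hli
    have hev : ev x y li = ev x y la * exU x * ev x y lb * exU y * ev x y lc := by
      simp only [hli, ev_append]
      simp [ev_cons, mul_assoc]
    rw [← hev] at hE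
    have hne : li ≠ [] := by simp [hli]
    have hnn : ∀ p ∈ li, 0 ≤ p.1.re ∧ 0 ≤ p.2.re := by
      intro p hp
      simp only [hli, List.mem_append, List.mem_singleton] at hp
      rcases hp with (((h | h) | h) | h) | h
      · have := hla p h; exact ⟨this.1.ge, this.2.ge⟩
      · subst h; simp
      · have := hlb p h; exact ⟨this.1.ge, this.2.ge⟩
      · subst h; simp
      · have := hlc p h; exact ⟨this.1.ge, this.2.ge⟩
    have stage : ∀ m ≤ k', ∃ l : ℕ → List (ℂ × ℂ), (∀ j, Str (l j)) ∧
      (∀ j, Df (m + 1) 0 (ev x y (l j) : PowerSeries R) (ex (x + y))) ∧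
      Tendsto (fun j => (ev x y (l j) : PowerSeries R)) atTop (𝓝 (ev x y li : PowerSeries R)) := by
      intro m
      induction m with
      | zero =>
        intro _
        refine ⟨fun j => pert (1 / ((j : ℝ) + 1)) li, ?_, ?_, ?_⟩
        · intro j
          refine pert_str hne hnn (by positivity) ?_
          rw [div_le_one (by positivity)]
          have : (0:ℝ) ≤ j := Nat.cast_nonneg j
          linarith
        · intro j
          have h1 : coeff 1 (ev x y li : PowerSeries R) = x + y := by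
            rw [hE.coeff_lt (by omega)]; simp
          refine Df.of_coeff (fun n hn => ?_) ?_
          · have : n = 0 := by omega
            subst this
            rw [(Good.ev _).1]; simp
          · rw [zero_add, coeff_one_pert hne _ h1]; simp
        · exact tendsto_pert li tendsto_one_div_add_atTop_nhds_zero_nat
      | succ m ihm =>
        intro hm
        exact step (ih (m + 1) (by omega) (by omega)) (hE.coeff_lt (by omega)) (ihm (by omega))
    obtain ⟨l, hl, hDf, hT⟩ := stage k' le_rfl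
    have hmem : ∀ j, coeff (k' + 2) (ev x y (l j) : PowerSeries R) - coeff (k' + 2) (ex (x + y))
        ∈ L x y (k' + 1) := by
      intro j
      have h1 := (hDf j).to_succ
      exact (Good.ev (x := x) (y := y) (l j)).sub_mem good_xy (k := k' + 1)
        fun n hn => h1.coeff_lt (by omega)
    have hlimit : Tendsto (fun j => (⟨_, hmem j⟩ : L x y (k' + 1))) atTop (𝓝 E) := by
      rw [tendsto_subtype_rng]
      have h1 := ((PowerSeries.WithPiTopology.tendsto_iff_coeff_tendsto R _ _ _).1 hT) (k' + 2)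
      have h2 := h1.sub_const (coeff (k' + 2) (ex (x + y)))
      rw [hE.coeff_eq, add_sub_cancel_left] at h2
      exact h2
    refine mem_closure_of_tendsto hlimit (Eventually.of_forall fun j => ?_)
    exact ⟨l j, hl j, (hDf j).to_succ⟩

/-- **Existence of methods of every order with exponents of positive real part**, in a
topological algebra. -/
theorem exists_strict (N : ℕ) : ∃ l : List (ℂ × ℂ), Str l ∧
    ∀ n ≤ N, coeff n (ev x y l : PowerSeries R) = coeff n (ex (x + y)) := by
  have : ContinuousSMul ℝ R := contSMulReal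
  rcases Nat.lt_or_ge N 2 with hN | hN
  · refine ⟨[(1, 1)], ⟨by simp, by simp⟩, fun n hn => ?_⟩
    have : n = 0 ∨ n = 1 := by omega
    rcases this with rfl | rfl
    · rw [(Good.ev _).1]; simp
    · rw [coeff_one_ev]; simp
  · obtain ⟨k, rfl⟩ : ∃ k, N = k + 2 := ⟨N - 2, by omega⟩
    obtain ⟨n, b, a0, lam, hb, ha0, hlam, hsum⟩ := cone_data (dense_KK (x := x) (y := y) (k + 1) (by omega))
    choose s hs hs' using hb
    obtain ⟨s0, hs0, hs0'⟩ := ha0
    set t : Fin n → ℝ := fun i => (lam i) ^ ((1:ℝ) / ((k + 2 : ℕ) : ℝ)) with ht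
    have htpow : ∀ i, (t i) ^ (k + 2) = lam i := by
      intro i
      simp only [ht]
      rw [one_div, Real.rpow_inv_natCast_pow (hlam i).le (by omega)]
    have htpos : ∀ i, 0 < t i := fun i => Real.rpow_pos_of_pos (hlam i) _
    set Θ : ℝ := 1 + ∑ i, t i with hΘ
    have hΘpos : 0 < Θ := by
      have : 0 ≤ ∑ i, t i := Finset.sum_nonneg fun i _ => (htpos i).le
      simp only [hΘ]; linarith
    have a1 : App x y (k + 2) 1 (a0 : R) (ev x y s0 : PowerSeries R) := App_of_Df hs0'
    have a2 := App_comb (x := x) (y := y) (k + 2) (by omega) n t s (fun i => ((b i : L x y (k + 1)) : R))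
      (fun i => App_of_Df (hs' i))
    have a4 := (a1.mul (by omega) a2).dil (1 / Θ)
    have hz : (a0 : R) + ∑ i, ((t i ^ (k + 2) : ℝ)) • ((b i : L x y (k + 1)) : R) = 0 := by
      have := congrArg (fun z : L x y (k + 1) => (z : R)) hsum
      simpa [htpow] using this
    have a5 : App x y (k + 2) 1 0 (Split.dil ((1 / Θ : ℝ) : ℂ) ((ev x y s0 : PowerSeries R)
        * (ev x y (comb n t s) : PowerSeries R))) := by
      refine a4.congr ?_ ?_
      · rw [one_div]
        exact inv_mul_cancel₀ hΘpos.ne'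
      · rw [hz, smul_zero]
    have a6 := Df_of_App a5
    refine ⟨sc ((1 / Θ : ℝ) : ℂ) (s0 ++ comb n t s), ?_, ?_⟩
    · exact (Str.append hs0 (pos_comb htpos hs)).sc (by positivity)
    · intro m hm
      rw [ev_sc, ev_append, Units.val_mul]
      rcases Nat.lt_or_ge m (k + 2) with h | h
      · exact a6.coeff_lt h
      · have : m = k + 2 := by omega
        subst this
        rw [a6.coeff_eq, add_zero]

end Pool.Agent.Y296.Split
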