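import Mathlib

open Filter Topology Set Metric Complex MeasureTheory
open scoped Real

namespace Pool.Agent.Y296.Split

variable {E : Type*} [NormedAddCommGroup E] [NormedSpace ℂ E] [FiniteDimensional ℂ E]
variable {F : Type*} [NormedAddCommGroup F] [NormedSpace ℂ F] [CompleteSpace F]

/-- the scalar weight in Cauchy's formula for the derivative at `0` -/
noncomputable def wt (θ : ℝ) : ℂ :=
  (2 * π * I : ℂ)⁻¹ * (deriv (circleMap 0 1) θ * ((circleMap 0 1 θ - 0) ^ 2)⁻¹)

lemma continuous_wt : Continuous wt := by
  unfold wt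
  have h1 : Continuous (deriv (circleMap 0 1)) := by
    have : deriv (circleMap 0 1) = fun θ => circleMap 0 1 θ * I := by
      funext θ; simp [deriv_circleMap]
    rw [this]
    exact (continuous_circleMap 0 1).mul continuous_const
  refine continuous_const.mul (h1.mul ?_)
  refine Continuous.inv₀ (((continuous_circleMap 0 1).sub continuous_const).pow 2) fun θ => ?_
  have : circleMap 0 1 θ ≠ 0 := circleMap_ne_center (by norm_num)
  simpa using this

omit [FiniteDimensional ℂ E] in
/-- Cauchy's formula for directional derivatives. -/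
lemma fderiv_eq_integral {f : E → F} (hf : Differentiable ℂ f) (x v : E) :
    fderiv ℂ f x v = ∫ θ in (0 : ℝ)..2 * π, wt θ • f (x + circleMap 0 1 θ • v) := by
  have h1 : HasDerivAt (fun ζ : ℂ => f (x + ζ • v)) (fderiv ℂ f x v) 0 := by
    have a1 : HasDerivAt (fun ζ : ℂ => x + ζ • v) v 0 := by
      have := ((hasDerivAt_id (0 : ℂ)).smul_const v).const_add x
      rw [one_smul] at this
      exact this
    have a2 : HasFDerivAt f (fderiv ℂ f x) (x + (0 : ℂ) • v) := by
      simpa using (hf x).hasFDerivAt
    exact a2.comp_hasDerivAt 0 a1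
  have h2 : DifferentiableOn ℂ (fun ζ : ℂ => f (x + ζ • v)) univ := by
    have : Differentiable ℂ (fun ζ : ℂ => f (x + ζ • v)) := hf.comp (by fun_prop)
    exact this.differentiableOn
  have h3 := two_pi_I_inv_smul_circleIntegral_sub_sq_inv_smul_of_differentiable isOpen_univ
    (c := 0) (w₀ := 0) (R := 1) (subset_univ _) h2 (by simp)
  rw [h1.deriv] at h3
  rw [← h3, circleIntegral, ← intervalIntegral.integral_smul]
  congr 1
  funext θ
  simp only [wt, smul_smul, mul_assoc]

omit [FiniteDimensional ℂ E] in
lemma continuous_fderiv_apply {f : E → F} (hf : Differentiable ℂ f) (v : E) :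
    Continuous fun x => fderiv ℂ f x v := by
  have e : (fun x => fderiv ℂ f x v)
      = fun x => ∫ θ in (0 : ℝ)..2 * π, wt θ • f (x + circleMap 0 1 θ • v) := by
    funext x; exact fderiv_eq_integral hf x v
  rw [e]
  refine intervalIntegral.continuous_parametric_intervalIntegral_of_continuous' (μ := volume)
    (f := fun (x : E) (θ : ℝ) => wt θ • f (x + circleMap 0 1 θ • v)) ?_ 0 (2 * π)
  have h1 : Continuous fun p : E × ℝ => wt p.2 := continuous_wt.comp continuous_snd
  have h2 : Continuous fun p : E × ℝ => circleMap 0 1 p.2 :=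
    (continuous_circleMap 0 1).comp continuous_snd
  exact h1.smul (hf.continuous.comp (continuous_fst.add (h2.smul continuous_const)))

lemma continuous_fderiv' {f : E → F} (hf : Differentiable ℂ f) : Continuous (fderiv ℂ f) := by
  have h : ∀ v, ContDiff ℂ 0 fun x => fderiv ℂ f x v := fun v =>
    contDiff_zero.2 (continuous_fderiv_apply hf v)
  have := contDiff_clm_apply_iff.2 h
  exact contDiff_zero.1 this

lemma differentiable_fderiv_apply {f : E → F} (hf : Differentiable ℂ f) (v : E) :
    Differentiable ℂ fun x => fderiv ℂ f x v := by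
  intro x₀
  have e : (fun x => fderiv ℂ f x v)
      = fun x => ∫ θ in (0 : ℝ)..2 * π, wt θ • f (x + circleMap 0 1 θ • v) := by
    funext x; exact fderiv_eq_integral hf x v
  rw [e]
  have : ProperSpace E := FiniteDimensional.proper ℂ E
  have hc1 : ∀ x : E, Continuous fun θ : ℝ => wt θ • f (x + circleMap 0 1 θ • v) := fun x =>
    continuous_wt.smul (hf.continuous.comp
      (continuous_const.add ((continuous_circleMap 0 1).smul continuous_const)))
  have hc2 : Continuous fun p : E × ℝ => wt p.2 • fderiv ℂ f (p.1 + circleMap 0 1 p.2 • v) := by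
    have h1 : Continuous fun p : E × ℝ => wt p.2 := continuous_wt.comp continuous_snd
    have h2 : Continuous fun p : E × ℝ => circleMap 0 1 p.2 :=
      (continuous_circleMap 0 1).comp continuous_snd
    exact h1.smul ((continuous_fderiv' hf).comp (continuous_fst.add (h2.smul continuous_const)))
  obtain ⟨M, hM⟩ := ((isCompact_closedBall x₀ 1).prod (isCompact_Icc (a := (0 : ℝ)) (b := 2 * π))).exists_bound_of_continuousOn
    (hc2.continuousOn)
  have hπ : (0 : ℝ) ≤ 2 * π := by positivity
  have hM' : ∀ θ : ℝ, θ ∈ Icc (0 : ℝ) (2 * π) → ∀ x : E, x ∈ closedBall x₀ 1 →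
      ‖wt θ • fderiv ℂ f (x + circleMap 0 1 θ • v)‖ ≤ M := by
    intro θ hθ x hx
    exact hM (x, θ) (mk_mem_prod hx hθ)
  have hmeas : AEStronglyMeasurable (fun θ : ℝ => wt θ • fderiv ℂ f (x₀ + circleMap 0 1 θ • v))
      (volume.restrict (uIoc 0 (2 * π))) := by
    have : Continuous fun θ : ℝ => wt θ • fderiv ℂ f (x₀ + circleMap 0 1 θ • v) :=
      continuous_wt.smul ((continuous_fderiv' hf).comp
        (continuous_const.add ((continuous_circleMap 0 1).smul continuous_const)))
    exact this.aestronglyMeasurable
  have hdiff : ∀ θ : ℝ, ∀ x : E, HasFDerivAt (fun x : E => wt θ • f (x + circleMap 0 1 θ • v))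
      (wt θ • fderiv ℂ f (x + circleMap 0 1 θ • v)) x := by
    intro θ x
    have a1 : HasFDerivAt (fun x : E => x + circleMap 0 1 θ • v) (ContinuousLinearMap.id ℂ E) x :=
      (hasFDerivAt_id x).add_const _
    have a2 : HasFDerivAt (fun x : E => f (x + circleMap 0 1 θ • v))
        ((fderiv ℂ f (x + circleMap 0 1 θ • v)).comp (ContinuousLinearMap.id ℂ E)) x :=
      ((hf _).hasFDerivAt).comp x a1
    rw [ContinuousLinearMap.comp_id] at a2
    exact a2.const_smul (wt θ)
  have := intervalIntegral.hasFDerivAt_integral_of_dominated_of_fderiv_le (𝕜 := ℂ) (μ := volume)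
    (F := fun (x : E) (θ : ℝ) => wt θ • f (x + circleMap 0 1 θ • v))
    (F' := fun (x : E) (θ : ℝ) => wt θ • fderiv ℂ f (x + circleMap 0 1 θ • v))
    (x₀ := x₀) (s := ball x₀ 1) (a := 0) (b := 2 * π) (bound := fun _ => M)
    (ball_mem_nhds x₀ one_pos)
    (Eventually.of_forall fun x => (hc1 x).aestronglyMeasurable)
    ((hc1 x₀).intervalIntegrable _ _) hmeas
    (Eventually.of_forall fun θ hθ x hx => by
      rw [uIoc_of_le hπ] at hθ
      exact hM' θ (Ioc_subset_Icc_self hθ) x (ball_subset_closedBall hx))
    intervalIntegrable_const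
    (Eventually.of_forall fun θ _ x _ => hdiff θ x)
  exact this.differentiableAt

/-- **A complex differentiable function of several variables is smooth.** -/
theorem contDiff_of_differentiable {f : E → F} (hf : Differentiable ℂ f) :
    ContDiff ℂ (⊤ : ℕ∞) f := by
  have key : ∀ n : ℕ, ∀ f : E → F, Differentiable ℂ f → ContDiff ℂ n f := by
    intro n
    induction n with
    | zero => intro f hf; exact contDiff_zero.2 hf.continuous
    | succ n ih =>
      intro f hf
      push_cast
      rw [contDiff_succ_iff_fderiv_apply]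
      refine ⟨hf, by simp, fun y => ih _ (differentiable_fderiv_apply hf y)⟩
  exact contDiff_infty.2 fun n => key n f hf

end Pool.Agent.Y296.Split
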