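import Pool.Agent.Y296.Split.Asym
import Pool.Agent.Y296.Split.Holo

open Finset Filter Topology Set Metric
open scoped NNReal

set_option linter.unusedSectionVars false
set_option linter.unusedSimpArgs false

namespace Pool.Agent.Y296.Split

/-! ### The opposite ring -/

section Op

variable {R : Type*} [Ring R] [Algebra ℂ R]

/-- products in reversed order -/
noncomputable def Pl (a b : R) : List (ℂ × ℂ) → PowerSeries R
  | [] => 1
  | (p :: l) => Pl a b l * ex (p.2 • b) * ex (p.1 • a)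

lemma unop_mul {F G : PowerSeries Rᵐᵒᵖ} {f g : PowerSeries R}
    (hf : ∀ n, MulOpposite.unop (PowerSeries.coeff n F) = PowerSeries.coeff n f)
    (hg : ∀ n, MulOpposite.unop (PowerSeries.coeff n G) = PowerSeries.coeff n g) (n : ℕ) :
    MulOpposite.unop (PowerSeries.coeff n (F * G)) = PowerSeries.coeff n (g * f) := by
  rw [PowerSeries.coeff_mul, PowerSeries.coeff_mul, ← Finset.Nat.sum_antidiagonal_swap]
  show MulOpposite.opAddEquiv.symm _ = _
  rw [map_sum]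
  refine Finset.sum_congr rfl fun p _ => ?_
  have h1 : MulOpposite.opAddEquiv.symm ((PowerSeries.coeff p.swap.1) F * (PowerSeries.coeff p.swap.2) G)
      = MulOpposite.unop ((PowerSeries.coeff p.swap.1) F * (PowerSeries.coeff p.swap.2) G) := rfl
  rw [h1, MulOpposite.unop_mul, hf, hg]
  rfl

lemma unop_ex (c : ℂ) (a : R) (n : ℕ) :
    MulOpposite.unop (PowerSeries.coeff n (ex (c • MulOpposite.op a)))
      = PowerSeries.coeff n (ex (c • a)) := by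
  rw [coeff_ex, coeff_ex, MulOpposite.unop_smul, MulOpposite.unop_pow, MulOpposite.unop_smul,
    MulOpposite.unop_op]

lemma unop_ev (a b : R) (l : List (ℂ × ℂ)) : ∀ n,
    MulOpposite.unop (PowerSeries.coeff n (ev (MulOpposite.op a) (MulOpposite.op b) l : PowerSeries Rᵐᵒᵖ))
      = PowerSeries.coeff n (Pl a b l) := by
  induction l with
  | nil =>
    intro n
    simp only [ev_nil, Units.val_one, Pl, PowerSeries.coeff_one]
    split_ifs <;> simp
  | cons p l ih =>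
    intro n
    rw [ev_cons, Units.val_mul, Units.val_mul, Pl]
    have h1 := unop_mul (unop_ex p.1 a) (unop_ex p.2 b)
    have h2 := unop_mul h1 ih n
    rw [← mul_assoc] at h2
    exact h2

end Op

variable {V : Type} [NormedAddCommGroup V] [NormedSpace ℂ V]

/-- `z = e^{α₁ T f₀} e^{β₁ T f₁} ⋯ e^{α_k T f₀} e^{β_k T f₁} x` (the rightmost map acts first). -/
def IsComp (T : ℝ) (f₀ f₁ : V → V) : List (ℂ × ℂ) → V → V → Prop
  | [], x, z => z = x
  | (p :: l), x, z => ∃ w w', IsComp T f₀ f₁ l x w ∧ IsFlow ((T : ℂ) * p.2) f₁ w w' ∧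
      IsFlow ((T : ℂ) * p.1) f₀ w' z

lemma Adm.congr {Rel Rel' : ℝ → V → V → Prop} {P : PowerSeries (Module.End ℂ (Sm V))}
    (h : Adm Rel P) (hR : ∀ T x z, Rel' T x z ↔ Rel T x z) : Adm Rel' P := by
  have : Rel' = Rel := by
    funext T x z; exact propext (hR T x z)
  rw [this]; exact h

lemma Adm.isComp [CompleteSpace V] {f₀ f₁ : V → V} (h₀ : ContDiff ℂ (⊤ : ℕ∞) f₀)
    (h₁ : ContDiff ℂ (⊤ : ℕ∞) f₁) (l : List (ℂ × ℂ)) :
    Adm (fun T x z => IsComp T f₀ f₁ l x z) (Pl (LD f₀ h₀) (LD f₁ h₁) l) := by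
  induction l with
  | nil => exact Adm.one
  | cons p l ih =>
    refine ((ih.comp (Adm.flow h₁ p.2)).comp (Adm.flow h₀ p.1)).congr ?_
    intro T x z
    constructor
    · rintro ⟨w, w', h1, h2, h3⟩
      exact ⟨w', ⟨w, h1, h2⟩, h3⟩
    · rintro ⟨w', ⟨w, h1, h2⟩, h3⟩
      exact ⟨w, w', h1, h2, h3⟩

lemma self_of_Fl {x₀ : V} {Q : V × ℝ → Prop} (h : ∀ᶠ p in Fl x₀, Q p) :
    ∀ᶠ T in 𝓝[>] (0 : ℝ), Q (x₀, T) := by
  have := h.curry
  exact this.self_of_nhds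

/-- The main theorem for smooth vector fields. -/
theorem main (N : ℕ) : ∃ l : List (ℂ × ℂ), Str l ∧
    ∀ (V : Type) [NormedAddCommGroup V] [NormedSpace ℂ V] [CompleteSpace V] (f₀ f₁ : V → V),
      ContDiff ℂ (⊤ : ℕ∞) f₀ → ContDiff ℂ (⊤ : ℕ∞) f₁ → ∀ x₀ : V,
      ∃ C : ℝ, ∀ᶠ T : ℝ in 𝓝[>] 0,
        (∃ u, IsFlow (T : ℂ) (f₀ + f₁) x₀ u) ∧ (∃ v, IsComp T f₀ f₁ l x₀ v) ∧
        ∀ u v, IsFlow (T : ℂ) (f₀ + f₁) x₀ u → IsComp T f₀ f₁ l x₀ v → ‖u - v‖ ≤ C * T ^ (N + 1) := by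
  obtain ⟨l, hl, huniv⟩ := exists_universal N
  refine ⟨l, hl, ?_⟩
  intro V _ _ _ f₀ f₁ h₀ h₁ x₀
  have hP : ∀ n ≤ N, PowerSeries.coeff n (Pl (LD f₀ h₀) (LD f₁ h₁) l)
      = PowerSeries.coeff n (ex ((1 : ℂ) • LD (f₀ + f₁) (h₀.add h₁))) := by
    intro n hn
    have h1 := huniv (Module.End ℂ (Sm V))ᵐᵒᵖ (MulOpposite.op (LD f₀ h₀)) (MulOpposite.op (LD f₁ h₁)) n hn
    have e1 := unop_ev (LD f₀ h₀) (LD f₁ h₁) l n
    have e2 := unop_ex (1 : ℂ) (LD (f₀ + f₁) (h₀.add h₁)) n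
    refine e1.symm.trans (Eq.trans ?_ e2)
    rw [h1, LD_add, one_smul, MulOpposite.op_add]
  have hA := Adm.isComp h₀ h₁ l
  have hB : Adm (fun T x z => IsFlow (T : ℂ) (f₀ + f₁) x z)
      (ex ((1 : ℂ) • LD (f₀ + f₁) (h₀.add h₁))) := by
    refine (Adm.flow (f := f₀ + f₁) (h₀.add h₁) 1).congr ?_
    intro T x z
    rw [mul_one]
  have hid : ContDiff ℂ (⊤ : ℕ∞) (fun x : V => x) := contDiff_id
  let g : Sm V := ⟨fun x => x, hid⟩
  obtain ⟨C₁, hC₁⟩ := hA.asym N g x₀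
  obtain ⟨C₂, hC₂⟩ := hB.asym N g x₀
  refine ⟨C₁ + C₂, ?_⟩
  filter_upwards [self_of_Fl (hA.exi x₀), self_of_Fl (hB.exi x₀), self_of_Fl hC₁, self_of_Fl hC₂]
    with T e1 e2 e3 e4
  refine ⟨e2, e1, fun u v hu hv => ?_⟩
  have a1 := e3 v hv
  have a2 := e4 u hu
  have a3 : ∑ n ∈ range (N + 1), ((T : ℂ) ^ n) •
      ((PowerSeries.coeff n (Pl (LD f₀ h₀) (LD f₁ h₁) l) g : Sm V) : V → V) x₀
      = ∑ n ∈ range (N + 1), ((T : ℂ) ^ n) •
      ((PowerSeries.coeff n (ex ((1 : ℂ) • LD (f₀ + f₁) (h₀.add h₁))) g : Sm V) : V → V) x₀ := by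
    refine Finset.sum_congr rfl fun n hn => ?_
    rw [hP n (Nat.lt_succ_iff.1 (Finset.mem_range.1 hn))]
  rw [a3] at a1
  set S := ∑ n ∈ range (N + 1), ((T : ℂ) ^ n) •
      ((PowerSeries.coeff n (ex ((1 : ℂ) • LD (f₀ + f₁) (h₀.add h₁))) g : Sm V) : V → V) x₀
  have a4 : u - v = (u - S) - (v - S) := by abel
  rw [a4]
  calc ‖(u - S) - (v - S)‖ ≤ ‖u - S‖ + ‖v - S‖ := norm_sub_le _ _
    _ ≤ C₂ * T ^ (N + 1) + C₁ * T ^ (N + 1) := add_le_add a2 a1
    _ = (C₁ + C₂) * T ^ (N + 1) := by ring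

/-- Uniqueness of flows in finite dimension. -/
lemma IsFlow.unique [FiniteDimensional ℂ V] {f : V → V} (hf : ContDiff ℂ (⊤ : ℕ∞) f) {τ : ℂ}
    {x z z' : V} (h : IsFlow τ f x z) (h' : IsFlow τ f x z') : z = z' := by
  obtain ⟨y, hy0, hy, hy1⟩ := h
  obtain ⟨w, hw0, hw, hw1⟩ := h'
  have : ProperSpace V := FiniteDimensional.proper ℂ V
  have hcy : ContinuousOn y (Icc 0 1) := fun s hs => (hy s hs).continuousWithinAt
  have hcw : ContinuousOn w (Icc 0 1) := fun s hs => (hw s hs).continuousWithinAt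
  obtain ⟨M₁, hM₁⟩ := isCompact_Icc.exists_bound_of_continuousOn hcy
  obtain ⟨M₂, hM₂⟩ := isCompact_Icc.exists_bound_of_continuousOn hcw
  set M := max M₁ M₂
  have hfR : ContDiff ℝ 1 f := (hf.restrict_scalars ℝ).of_le (by simp)
  have hcf : Continuous (fderiv ℝ f) := hfR.continuous_fderiv (by simp)
  obtain ⟨K, hK⟩ := (isCompact_closedBall (0 : V) M).exists_bound_of_continuousOn hcf.continuousOn
  have hK' : ∀ v ∈ closedBall (0 : V) M, ‖fderiv ℝ f v‖₊ ≤ K.toNNReal := by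
    intro v hv
    rw [← NNReal.coe_le_coe, coe_nnnorm]
    exact (hK v hv).trans (Real.le_coe_toNNReal K)
  have hL : LipschitzOnWith K.toNNReal f (closedBall 0 M) :=
    (convex_closedBall (0 : V) M).lipschitzOnWith_of_nnnorm_fderiv_le
      (fun v _ => (hfR.differentiable (by simp)) v) hK'
  have hL' : ∀ t ∈ Ico (0 : ℝ) 1, LipschitzOnWith (‖τ‖₊ * K.toNNReal) (fun v => τ • f v) (closedBall 0 M) := by
    intro t _
    have h1 : LipschitzWith ‖τ‖₊ (fun v : V => τ • v) := lipschitzWith_smul τ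
    exact h1.comp_lipschitzOnWith hL
  have conv : ∀ {y : ℝ → V}, (∀ s ∈ Icc (0 : ℝ) 1, HasDerivWithinAt y (τ • f (y s)) (Icc (0 : ℝ) 1) s) →
      ∀ s ∈ Ico (0 : ℝ) 1, HasDerivWithinAt y (τ • f (y s)) (Ici s) s := by
    intro y hy s hs
    exact (hy s ⟨hs.1, hs.2.le⟩).mono_of_mem_nhdsWithin (Icc_mem_nhdsGE_of_mem hs)
  have key := ODE_solution_unique_of_mem_Icc_right (v := fun _ v => τ • f v) (s := fun _ => closedBall 0 M)
    hL' hcy (conv hy)
    (fun t ht => by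
      rw [mem_closedBall, dist_zero_right]
      exact (hM₁ t ⟨ht.1, ht.2.le⟩).trans (le_max_left _ _))
    hcw (conv hw)
    (fun t ht => by
      rw [mem_closedBall, dist_zero_right]
      exact (hM₂ t ⟨ht.1, ht.2.le⟩).trans (le_max_right _ _))
    (by rw [hy0, hw0])
  rw [← hy1, ← hw1]
  exact key (by simp)

end Pool.Agent.Y296.Split
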