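import Pool.Agent.Y296.Split.Univ

open Finset Filter Topology Set Metric
open scoped NNReal

set_option linter.unusedSectionVars false
set_option linter.unusedSimpArgs false

namespace Pool.Agent.Y296.Split

variable {V : Type} [NormedAddCommGroup V] [NormedSpace ℂ V]

/-- `z` is the value at `s = 1` of a solution of `y' = τ f(y)`, `y 0 = x`, on `[0,1]`. -/
def IsFlow (τ : ℂ) (f : V → V) (x z : V) : Prop :=
  ∃ y : ℝ → V, y 0 = x ∧
    (∀ s ∈ Icc (0 : ℝ) 1, HasDerivWithinAt y (τ • f (y s)) (Icc (0 : ℝ) 1) s) ∧ y 1 = z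

/-- The smooth maps. -/
def Sm (V : Type) [NormedAddCommGroup V] [NormedSpace ℂ V] : Submodule ℂ (V → V) where
  carrier := {g | ContDiff ℂ (⊤ : ℕ∞) g}
  zero_mem' := by
    show ContDiff ℂ (⊤ : ℕ∞) (fun _ => (0 : V))
    exact contDiff_const
  add_mem' := by
    intro f g hf hg
    have hf' : ContDiff ℂ (⊤ : ℕ∞) f := hf
    have hg' : ContDiff ℂ (⊤ : ℕ∞) g := hg
    exact hf'.add hg'
  smul_mem' := by
    intro c f hf
    have hf' : ContDiff ℂ (⊤ : ℕ∞) f := hf
    exact contDiff_const.smul hf'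

/-- The Lie derivative along `f`. -/
noncomputable def LD (f : V → V) (hf : ContDiff ℂ (⊤ : ℕ∞) f) : Module.End ℂ (Sm V) where
  toFun g := ⟨fun x => fderiv ℂ (g : V → V) x (f x), by
    have hg : ContDiff ℂ (⊤ : ℕ∞) (g : V → V) := g.2
    have h1 : ContDiff ℂ (⊤ : ℕ∞) (fderiv ℂ (g : V → V)) := hg.fderiv_right (by simp)
    exact h1.clm_apply hf⟩
  map_add' g h := by
    ext x
    have hg : ContDiff ℂ (⊤ : ℕ∞) (g : V → V) := g.2
    have hh : ContDiff ℂ (⊤ : ℕ∞) (h : V → V) := h.2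
    have := fderiv_add ((hg.differentiable (by simp)) x) ((hh.differentiable (by simp)) x)
    show fderiv ℂ ((g : V → V) + (h : V → V)) x (f x) = _
    rw [this]; rfl
  map_smul' c g := by
    ext x
    have hg : ContDiff ℂ (⊤ : ℕ∞) (g : V → V) := g.2
    have := fderiv_const_smul ((hg.differentiable (by simp)) x) c
    show fderiv ℂ (c • (g : V → V)) x (f x) = _
    rw [this]; rfl

lemma LD_apply (f : V → V) (hf : ContDiff ℂ (⊤ : ℕ∞) f) (g : Sm V) (x : V) :
    (LD f hf g : V → V) x = fderiv ℂ (g : V → V) x (f x) := rfl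

lemma LD_add (f₀ f₁ : V → V) (h₀ : ContDiff ℂ (⊤ : ℕ∞) f₀) (h₁ : ContDiff ℂ (⊤ : ℕ∞) f₁) :
    LD (f₀ + f₁) (h₀.add h₁) = LD f₀ h₀ + LD f₁ h₁ := by
  ext g x
  show fderiv ℂ (g : V → V) x (f₀ x + f₁ x) = fderiv ℂ (g : V → V) x (f₀ x) + fderiv ℂ (g : V → V) x (f₁ x)
  rw [map_add]

lemma hasDeriv_comp {f : V → V} (hf : ContDiff ℂ (⊤ : ℕ∞) f) {τ : ℂ} {y : ℝ → V}
    (hy : ∀ s ∈ Icc (0 : ℝ) 1, HasDerivWithinAt y (τ • f (y s)) (Icc (0 : ℝ) 1) s) (g : Sm V)
    {s : ℝ} (hs : s ∈ Icc (0 : ℝ) 1) :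
    HasDerivWithinAt (fun s => (g : V → V) (y s)) (τ • (LD f hf g : V → V) (y s)) (Icc (0 : ℝ) 1) s := by
  have hg : ContDiff ℂ (⊤ : ℕ∞) (g : V → V) := g.2
  have h1 : HasFDerivAt (g : V → V) (fderiv ℂ (g : V → V) (y s)) (y s) :=
    ((hg.differentiable (by simp)) (y s)).hasFDerivAt
  have h2 := (h1.restrictScalars ℝ).comp_hasDerivWithinAt s (hy s hs)
  rw [LD_apply]
  have h3 : (ContinuousLinearMap.restrictScalars ℝ (fderiv ℂ (g : V → V) (y s))) (τ • f (y s))
      = τ • (fderiv ℂ (g : V → V) (y s)) (f (y s)) := by simp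
  rw [h3] at h2
  exact h2

/-- Taylor expansion along a solution curve. -/
lemma taylor_curve {f : V → V} (hf : ContDiff ℂ (⊤ : ℕ∞) f) {τ : ℂ} {x : V} {y : ℝ → V} (hy0 : y 0 = x)
    (hy : ∀ s ∈ Icc (0 : ℝ) 1, HasDerivWithinAt y (τ • f (y s)) (Icc (0 : ℝ) 1) s) {M : ℝ}
    (hM0 : 0 ≤ M) (n : ℕ) : ∀ h : Sm V,
    (∀ s ∈ Icc (0 : ℝ) 1, ‖((LD f hf ^ n) h : V → V) (y s)‖ ≤ M) →
    ∀ s ∈ Icc (0 : ℝ) 1, ‖(h : V → V) (y s) - ∑ k ∈ range n,
      ((((s : ℂ) * τ) ^ k / (k.factorial : ℂ)) • ((LD f hf ^ k) h : V → V) x)‖ ≤ M * ‖τ‖ ^ n := by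
  induction n with
  | zero =>
    intro h hb s hs
    simpa using hb s hs
  | succ n ih =>
    intro h hb s hs
    have ih' := ih (LD f hf h) (by
      intro s hs
      have := hb s hs
      rwa [pow_succ] at this)
    set φ : ℝ → V := fun s => (h : V → V) (y s) - ∑ k ∈ range (n + 1),
      ((((s : ℂ) * τ) ^ k / (k.factorial : ℂ)) • ((LD f hf ^ k) h : V → V) x) with hφ
    set ψ : ℝ → V := fun s => (LD f hf h : V → V) (y s) - ∑ k ∈ range n,
      ((((s : ℂ) * τ) ^ k / (k.factorial : ℂ)) • ((LD f hf ^ k) (LD f hf h) : V → V) x) with hψ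
    have hder : ∀ s ∈ Icc (0 : ℝ) 1, HasDerivWithinAt φ (τ • ψ s) (Icc (0 : ℝ) 1) s := by
      intro s hs
      have h1 := hasDeriv_comp hf hy h hs
      have h2 : ∀ k : ℕ, HasDerivWithinAt (fun s : ℝ => ((((s : ℂ) * τ) ^ (k + 1) / (((k + 1).factorial : ℕ) : ℂ)) •
          ((LD f hf ^ (k + 1)) h : V → V) x))
          (τ • ((((s : ℂ) * τ) ^ k / (k.factorial : ℂ)) • ((LD f hf ^ k) (LD f hf h) : V → V) x))
          (Icc (0 : ℝ) 1) s := by
        intro k
        have a1 : HasDerivAt (fun s : ℝ => (s : ℂ) * τ) τ s := by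
          have := (Complex.ofRealCLM.hasDerivAt (x := s)).mul_const τ
          simpa using this
        have a2 := (a1.pow (k + 1)).div_const (((k + 1).factorial : ℕ) : ℂ)
        have a3 := (a2.smul_const (((LD f hf ^ (k + 1)) h : V → V) x)).hasDerivWithinAt (s := Icc (0 : ℝ) 1)
        refine a3.congr_deriv ?_
        rw [pow_succ (LD f hf) k]
        rw [smul_smul]
        show _ • ((LD f hf ^ k) (LD f hf h) : V → V) x = _
        congr 1
        rw [Nat.factorial_succ]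
        have e1 : ((k : ℂ) + 1) ≠ 0 := by exact_mod_cast Nat.succ_ne_zero k
        have e2 : ((k.factorial : ℂ)) ≠ 0 := by exact_mod_cast Nat.factorial_ne_zero k
        push_cast
        field_simp
      have h3 : HasDerivWithinAt (fun s : ℝ => ∑ k ∈ range n,
          ((((s : ℂ) * τ) ^ (k + 1) / (((k + 1).factorial : ℕ) : ℂ)) • ((LD f hf ^ (k + 1)) h : V → V) x))
          (∑ k ∈ range n, τ • ((((s : ℂ) * τ) ^ k / (k.factorial : ℂ)) •
            ((LD f hf ^ k) (LD f hf h) : V → V) x)) (Icc (0 : ℝ) 1) s := by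
        have := HasDerivWithinAt.sum (u := range n) fun k _ => h2 k
        convert this using 1
        ext s; simp
      have h4 := (h1.sub (h3.add_const ((h : V → V) x)))
      have e1 : φ = ((fun s => (h : V → V) (y s)) - fun s : ℝ => (∑ k ∈ range n,
          ((((s : ℂ) * τ) ^ (k + 1) / (((k + 1).factorial : ℕ) : ℂ)) • ((LD f hf ^ (k + 1)) h : V → V) x))
          + (h : V → V) x) := by
        funext s
        simp only [hφ, Pi.sub_apply]
        rw [Finset.sum_range_succ']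
        simp
      rw [e1]
      refine h4.congr_deriv ?_
      simp only [hψ]
      rw [smul_sub, Finset.smul_sum]
    have hbound : ∀ s ∈ Ico (0 : ℝ) 1, ‖τ • ψ s‖ ≤ M * ‖τ‖ ^ (n + 1) := by
      intro s hs
      rw [norm_smul, pow_succ]
      have := ih' s ⟨hs.1, hs.2.le⟩
      calc ‖τ‖ * ‖ψ s‖ ≤ ‖τ‖ * (M * ‖τ‖ ^ n) := by gcongr
        _ = M * (‖τ‖ ^ n * ‖τ‖) := by ring
    have key := norm_image_sub_le_of_norm_deriv_le_segment' hder hbound s hs
    have e0 : φ 0 = 0 := by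
      simp only [hφ, hy0]
      rw [Finset.sum_range_succ']
      simp
    rw [e0, sub_zero, sub_zero] at key
    refine key.trans ?_
    have : 0 ≤ M * ‖τ‖ ^ (n + 1) := by positivity
    have hs1 := hs.2
    nlinarith

/-- Solution curves stay in a ball for short complex times. -/
lemma stay {f : V → V} {x₀ : V} {r ρ M : ℝ} (hM0 : 0 ≤ M) (hM : ∀ x ∈ closedBall x₀ r, ‖f x‖ ≤ M)
    {τ : ℂ} (hτ : ‖τ‖ * M < r - ρ) {x : V} (hx : x ∈ closedBall x₀ ρ) {y : ℝ → V} (hy0 : y 0 = x)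
    (hy : ∀ s ∈ Icc (0 : ℝ) 1, HasDerivWithinAt y (τ • f (y s)) (Icc (0 : ℝ) 1) s) :
    ∀ s ∈ Icc (0 : ℝ) 1, y s ∈ closedBall x₀ r := by
  have hcont : ContinuousOn y (Icc 0 1) := fun s hs => (hy s hs).continuousWithinAt
  have hM1 : 0 ≤ ‖τ‖ * M := by positivity
  have hρr : ρ < r := by linarith
  have key := image_norm_le_of_norm_deriv_right_lt_deriv_boundary' (f := fun s => y s - x₀)
    (f' := fun s => τ • f (y s)) (a := 0) (b := 1) (B := fun s => ρ + (r - ρ) * s)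
    (B' := fun _ => r - ρ) (hcont.sub continuousOn_const) ?_ ?_ ?_ ?_ ?_
  · intro s hs
    rw [mem_closedBall, dist_eq_norm]
    refine (key hs).trans ?_
    have := hs.2
    nlinarith
  · intro s hs
    have h1 := hy s ⟨hs.1, hs.2.le⟩
    have h2 : HasDerivWithinAt y (τ • f (y s)) (Ici s) s := by
      refine (h1.mono_of_mem_nhdsWithin ?_)
      exact Icc_mem_nhdsGE_of_mem hs
    exact h2.sub_const x₀
  · rw [hy0]
    have := mem_closedBall.1 hx
    rw [dist_eq_norm] at this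
    simpa using this
  · fun_prop
  · intro s _
    have : HasDerivAt (fun s : ℝ => ρ + (r - ρ) * s) (r - ρ) s := by
      simpa using ((hasDerivAt_id s).const_mul (r - ρ)).const_add ρ
    exact this.hasDerivWithinAt
  · intro s hs hs'
    have hin : y s ∈ closedBall x₀ r := by
      rw [mem_closedBall, dist_eq_norm, hs']
      have := hs.2
      have h0 := hs.1
      nlinarith
    rw [norm_smul]
    refine lt_of_le_of_lt ?_ hτ
    exact mul_le_mul_of_nonneg_left (hM _ hin) (norm_nonneg _)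

end Pool.Agent.Y296.Split
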