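import Pool.Agent.Y296.Split.Alg

open PowerSeries Finset

set_option linter.unusedSectionVars false
set_option linter.unusedSimpArgs false

namespace Pool.Agent.Y296.Split

variable {R : Type*} [Ring R] [Algebra ℂ R]

/-- `v ↦ [v, w]` as a real linear map. -/
noncomputable def brk (w : R) : R →ₗ[ℝ] R where
  toFun v := v * w - w * v
  map_add' u v := by rw [add_mul, mul_add]; abel
  map_smul' r v := by
    rw [smul_mul_assoc, mul_smul_comm, ← smul_sub]; rfl

@[simp] lemma brk_apply (w v : R) : brk w v = v * w - w * v := rfl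

/-- multiplication by a complex scalar as a real linear map. -/
noncomputable def sm (c : ℂ) : R →ₗ[ℝ] R where
  toFun v := c • v
  map_add' u v := smul_add _ _ _
  map_smul' r v := by
    simp only [RingHom.id_apply]
    rw [← Complex.coe_smul, ← Complex.coe_smul, smul_smul, smul_smul, mul_comm]

@[simp] lemma sm_apply (c : ℂ) (v : R) : sm c v = c • v := rfl

variable (x y : R)

/-- The degree `k+1` part of the real Lie algebra generated by `i x`, `i y`. -/
noncomputable def Fr : ℕ → Submodule ℝ R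
  | 0 => Submodule.span ℝ {Complex.I • x, Complex.I • y}
  | (k + 1) => (Fr k).map (brk (Complex.I • x)) ⊔ (Fr k).map (brk (Complex.I • y))

/-- The degree `k+1` part of the complex Lie algebra generated by `x`, `y`. -/
noncomputable def L (k : ℕ) : Submodule ℝ R := Fr x y k ⊔ (Fr x y k).map (sm Complex.I)

instance Fr_fd (k : ℕ) : FiniteDimensional ℝ (Fr x y k) := by
  induction k with
  | zero =>
    rw [Fr]
    exact FiniteDimensional.span_of_finite ℝ (by simp)
  | succ k ih =>
    rw [Fr]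
    infer_instance

instance L_fd (k : ℕ) : FiniteDimensional ℝ (L x y k) := by
  rw [L]; infer_instance

variable {x y}

lemma mem_L {k : ℕ} {w : R} : w ∈ L x y k ↔ ∃ f ∈ Fr x y k, ∃ g ∈ Fr x y k, w = f + Complex.I • g := by
  rw [L, Submodule.mem_sup]
  constructor
  · rintro ⟨f, hf, h, hh, rfl⟩
    obtain ⟨g, hg, rfl⟩ := hh
    exact ⟨f, hf, g, hg, rfl⟩
  · rintro ⟨f, hf, g, hg, rfl⟩
    exact ⟨f, hf, _, ⟨g, hg, rfl⟩, rfl⟩

lemma Fr_le_L {k : ℕ} {w : R} (h : w ∈ Fr x y k) : w ∈ L x y k :=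
  mem_L.2 ⟨w, h, 0, Submodule.zero_mem _, by simp⟩

lemma I_smul_mem {k : ℕ} {w : R} (h : w ∈ L x y k) : Complex.I • w ∈ L x y k := by
  obtain ⟨f, hf, g, hg, rfl⟩ := mem_L.1 h
  refine mem_L.2 ⟨-g, Submodule.neg_mem _ hg, f, hf, ?_⟩
  rw [smul_add, smul_smul, Complex.I_mul_I, neg_one_smul, add_comm]

lemma smul_mem {k : ℕ} {w : R} (h : w ∈ L x y k) (c : ℂ) : c • w ∈ L x y k := by
  have : c • w = c.re • w + c.im • (Complex.I • w) := by
    conv_lhs => rw [← Complex.re_add_im c, add_smul, mul_smul]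
    rfl
  rw [this]
  exact Submodule.add_mem _ (Submodule.smul_mem _ _ h) (Submodule.smul_mem _ _ (I_smul_mem h))

lemma mem_Fr_succ {k : ℕ} {w : R} : w ∈ Fr x y (k + 1) ↔ ∃ u ∈ Fr x y k, ∃ v ∈ Fr x y k,
    w = (u * (Complex.I • x) - (Complex.I • x) * u) + (v * (Complex.I • y) - (Complex.I • y) * v) := by
  rw [Fr, Submodule.mem_sup]
  constructor
  · rintro ⟨_, ⟨u, hu, rfl⟩, _, ⟨v, hv, rfl⟩, rfl⟩
    exact ⟨u, hu, v, hv, rfl⟩
  · rintro ⟨u, hu, v, hv, rfl⟩
    exact ⟨_, ⟨u, hu, rfl⟩, _, ⟨v, hv, rfl⟩, rfl⟩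

/-- Every element of `L (k+1)` is the sum of an element of `Fr (k+1)` and of
`[v₁, x] + [v₂, y]` with `v₁, v₂` in `Fr k`. -/
lemma L_decomp {k : ℕ} {w : R} (h : w ∈ L x y (k + 1)) : ∃ f ∈ Fr x y (k + 1), ∃ u ∈ Fr x y k,
    ∃ v ∈ Fr x y k, w = (u * x - x * u) + (v * y - y * v) + f := by
  obtain ⟨f, hf, g, hg, rfl⟩ := mem_L.1 h
  obtain ⟨u, hu, v, hv, rfl⟩ := mem_Fr_succ.1 hg
  refine ⟨f, hf, -u, Submodule.neg_mem _ hu, -v, Submodule.neg_mem _ hv, ?_⟩
  simp only [smul_add, smul_sub, mul_smul_comm, smul_mul_assoc, smul_smul, Complex.I_mul_I,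
    neg_smul, one_smul, neg_mul, mul_neg]
  abel

lemma brk_x_mem {k : ℕ} {w : R} (h : w ∈ L x y k) : w * x - x * w ∈ L x y (k + 1) := by
  have h1 : w * (Complex.I • x) - (Complex.I • x) * w ∈ L x y (k + 1) := by
    obtain ⟨f, hf, g, hg, rfl⟩ := mem_L.1 h
    refine mem_L.2 ⟨_, mem_Fr_succ.2 ⟨f, hf, 0, Submodule.zero_mem _, rfl⟩,
      _, mem_Fr_succ.2 ⟨g, hg, 0, Submodule.zero_mem _, rfl⟩, ?_⟩
    simp only [smul_add, smul_sub, mul_smul_comm, smul_mul_assoc, smul_smul, add_mul, mul_add,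
      zero_mul, mul_zero, smul_zero]
    abel
  have h2 := smul_mem h1 (-Complex.I)
  have : (-Complex.I) • (w * (Complex.I • x) - (Complex.I • x) * w) = w * x - x * w := by
    simp only [smul_sub, mul_smul_comm, smul_mul_assoc, smul_smul, neg_mul, Complex.I_mul_I,
      neg_neg, one_smul]
  rwa [this] at h2

lemma brk_y_mem {k : ℕ} {w : R} (h : w ∈ L x y k) : w * y - y * w ∈ L x y (k + 1) := by
  have h1 : w * (Complex.I • y) - (Complex.I • y) * w ∈ L x y (k + 1) := by
    obtain ⟨f, hf, g, hg, rfl⟩ := mem_L.1 h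
    refine mem_L.2 ⟨_, mem_Fr_succ.2 ⟨0, Submodule.zero_mem _, f, hf, rfl⟩,
      _, mem_Fr_succ.2 ⟨0, Submodule.zero_mem _, g, hg, rfl⟩, ?_⟩
    simp only [smul_add, smul_sub, mul_smul_comm, smul_mul_assoc, smul_smul, add_mul, mul_add,
      zero_mul, mul_zero, smul_zero]
    abel
  have h2 := smul_mem h1 (-Complex.I)
  have : (-Complex.I) • (w * (Complex.I • y) - (Complex.I • y) * w) = w * y - y * w := by
    simp only [smul_sub, mul_smul_comm, smul_mul_assoc, smul_smul, neg_mul, Complex.I_mul_I,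
      neg_neg, one_smul]
  rwa [this] at h2

lemma brk_mem {k : ℕ} {w : R} (h : w ∈ L x y k) (α β : ℂ) :
    (α • x + β • y) * w - w * (α • x + β • y) ∈ L x y (k + 1) := by
  have h1 := smul_mem (brk_x_mem h) (-α)
  have h2 := smul_mem (brk_y_mem h) (-β)
  have := Submodule.add_mem _ h1 h2
  convert this using 1
  simp only [smul_sub, mul_smul_comm, smul_mul_assoc, smul_smul, add_mul, mul_add, neg_smul]
  abel

lemma lin_mem (α β : ℂ) : α • x + β • y ∈ L x y 0 := by
  have hx : Complex.I • x ∈ Fr x y 0 := Submodule.subset_span (by simp)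
  have hy : Complex.I • y ∈ Fr x y 0 := Submodule.subset_span (by simp)
  have h1 := smul_mem (Fr_le_L hx) (-(Complex.I) * α)
  have h2 := smul_mem (Fr_le_L hy) (-(Complex.I) * β)
  have := Submodule.add_mem _ h1 h2
  convert this using 1
  rw [smul_smul, smul_smul]
  congr 2
  · rw [mul_comm, ← mul_assoc, mul_neg, Complex.I_mul_I]; simp
  · rw [mul_comm, ← mul_assoc, mul_neg, Complex.I_mul_I]; simp

/-! ### Graded Lie series -/

variable (x y) in
/-- `f` is a Lie series: its degree `n` coefficient is a Lie polynomial of degree `n`. -/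
def LieS (f : PowerSeries R) : Prop := coeff 0 f = 0 ∧ ∀ k, coeff (k + 1) f ∈ L x y k

lemma LieS.add {f g : PowerSeries R} (hf : LieS x y f) (hg : LieS x y g) : LieS x y (f + g) := by
  refine ⟨by rw [map_add, hf.1, hg.1, add_zero], fun k => ?_⟩
  rw [map_add]; exact Submodule.add_mem _ (hf.2 k) (hg.2 k)

lemma LieS.neg {f : PowerSeries R} (hf : LieS x y f) : LieS x y (-f) := by
  refine ⟨by rw [map_neg, hf.1, neg_zero], fun k => ?_⟩
  rw [map_neg]; exact Submodule.neg_mem _ (hf.2 k)

/-- Homogeneous case of the invariance under conjugation. -/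
lemma conj_monomial (a : R) (ha : ∀ k, ∀ w ∈ L x y k, a * w - w * a ∈ L x y (k + 1))
    (m : ℕ) (b : R) (hb : b ∈ L x y m) :
    ∀ k, coeff (k + 1) (ex a * PowerSeries.monomial (m + 1) b * ex (-a)) ∈ L x y k := by
  set G : PowerSeries R := ex a * PowerSeries.monomial (m + 1) b * ex (-a) with hG
  have hmon : PowerSeries.monomial (m + 1) b = X ^ (m + 1) * (C b : PowerSeries R) := by
    ext n
    rw [PowerSeries.coeff_monomial, PowerSeries.coeff_X_pow_mul']
    split_ifs with h1 h2 h2
    · subst h1; simp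
    · omega
    · rw [PowerSeries.coeff_C, if_neg (by omega)]
    · rfl
  have hXF : ∀ (n : ℕ) (f : PowerSeries R), f * X ^ n = X ^ n * f :=
    fun n f => (PowerSeries.commute_X_pow f n).eq
  have hX : ∀ f : PowerSeries R, f * X = X * f := fun f => (PowerSeries.commute_X f).eq
  have hG2 : G = X ^ (m + 1) * (ex a * C b * ex (-a)) := by
    rw [hG, hmon, ← mul_assoc, hXF]; simp only [mul_assoc]
  have hlow : ∀ n < m + 1, coeff n G = 0 := by
    intro n hn
    rw [hG2, PowerSeries.coeff_X_pow_mul', if_neg (by omega)]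
  have hmid : coeff (m + 1) G = b := by
    rw [hG2, PowerSeries.coeff_X_pow_mul', if_pos le_rfl, Nat.sub_self, coeff_zero_mul',
      coeff_zero_mul']
    simp
  have hDm : D (PowerSeries.monomial (m + 1) b : PowerSeries R)
      = ((m + 1 : ℕ) : PowerSeries R) * PowerSeries.monomial (m + 1) b := by
    ext n
    rw [coeff_D, PowerSeries.coeff_monomial]
    have : (((m + 1 : ℕ)) : PowerSeries R) = C (((m + 1 : ℕ)) : R) := by simp
    rw [this, PowerSeries.coeff_C_mul, PowerSeries.coeff_monomial]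
    split_ifs with h
    · subst h
      rw [Algebra.smul_def, map_natCast]
    · simp
  have hDG : D G = X * (C a * G - G * C a) + ((m + 1 : ℕ) : PowerSeries R) * G := by
    have hcomm : C a * ex (-a) = ex (-a) * C a := by
      have := commute_C_ex (-a)
      rw [map_neg, neg_mul, mul_neg] at this
      exact neg_injective this
    rw [hG, D_mul, D_mul, D_ex, D_ex, hDm]
    have h1 : ex a * (((m + 1 : ℕ) : PowerSeries R) * PowerSeries.monomial (m + 1) b)
        = ((m + 1 : ℕ) : PowerSeries R) * (ex a * PowerSeries.monomial (m + 1) b) := by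
      rw [← mul_assoc, ← mul_assoc, (Nat.cast_commute (m + 1) (ex a)).eq]
    rw [h1, map_neg, neg_mul, mul_neg, mul_neg, hcomm]
    set M : PowerSeries R := PowerSeries.monomial (m + 1) b
    have h2 : ex a * M * (X * (ex (-a) * C a)) = X * (ex a * M * ex (-a) * C a) := by
      rw [← mul_assoc, hX]; simp only [mul_assoc]
    rw [h2, add_mul, mul_sub]
    simp only [mul_assoc]
    abel
  intro k
  induction k with
  | zero =>
    rcases Nat.eq_zero_or_pos m with h0 | h0
    · subst h0
      rw [hmid]; exact hb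
    · rw [hlow _ (by omega)]; exact Submodule.zero_mem _
  | succ k ih =>
    rcases lt_trichotomy (k + 1) m with h1 | h1 | h1
    · rw [hlow _ (by omega)]; exact Submodule.zero_mem _
    · subst h1
      rw [hmid]; exact hb
    · have h2 := congrArg (coeff (k + 1 + 1)) hDG
      rw [coeff_D, map_add, PowerSeries.coeff_succ_X_mul, map_sub, PowerSeries.coeff_C_mul,
        PowerSeries.coeff_mul_C] at h2
      have h3 : (((m + 1 : ℕ)) : PowerSeries R) = C (((m + 1 : ℕ)) : R) := by simp
      rw [h3, PowerSeries.coeff_C_mul] at h2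
      have h4 : (((m + 1 : ℕ)) : R) * coeff (k + 1 + 1) G
          = (((m + 1 : ℕ)) : ℂ) • coeff (k + 1 + 1) G := by
        rw [Algebra.smul_def, map_natCast]
      rw [h4] at h2
      have h5 : ((((k + 1 + 1 : ℕ)) : ℂ) - (((m + 1 : ℕ)) : ℂ)) • coeff (k + 1 + 1) G
          = a * coeff (k + 1) G - coeff (k + 1) G * a := by
        rw [sub_smul, h2]; abel
      have h6 : ((((k + 1 + 1 : ℕ)) : ℂ) - (((m + 1 : ℕ)) : ℂ)) ≠ 0 := by
        intro h
        have : (((k + 1 + 1 : ℕ)) : ℂ) = (((m + 1 : ℕ)) : ℂ) := sub_eq_zero.mp h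
        have := Nat.cast_injective this
        omega
      have h7 : coeff (k + 1 + 1) G = ((((k + 1 + 1 : ℕ)) : ℂ) - (((m + 1 : ℕ)) : ℂ))⁻¹ •
          (a * coeff (k + 1) G - coeff (k + 1) G * a) := by
        rw [← h5, smul_smul, inv_mul_cancel₀ h6, one_smul]
      rw [h7]
      exact smul_mem (ha _ _ ih) _

lemma coeff_mul_mul_congr {u f g v : PowerSeries R} {n : ℕ} (h : ∀ m ≤ n, coeff m f = coeff m g) :
    coeff n (u * f * v) = coeff n (u * g * v) := by
  have h1 : Df (n + 1) (coeff (n + 1) f - coeff (n + 1) g) f g :=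
    Df.of_coeff (fun m hm => h m (by omega)) (by abel)
  exact ((h1.mul_left u).mul_right v).coeff_lt (by omega)

lemma LieS.conj {f : PowerSeries R} (hf : LieS x y f) (a : R)
    (ha : ∀ k, ∀ w ∈ L x y k, a * w - w * a ∈ L x y (k + 1)) : LieS x y (ex a * f * ex (-a)) := by
  refine ⟨?_, fun k => ?_⟩
  · rw [coeff_zero_mul', coeff_zero_mul', hf.1]; simp
  · have h1 : coeff (k + 1) (ex a * f * ex (-a)) = coeff (k + 1) (ex a *
        (∑ m ∈ Finset.range (k + 1), PowerSeries.monomial (m + 1) (coeff (m + 1) f)) * ex (-a)) := by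
      refine coeff_mul_mul_congr fun n hn => ?_
      rw [map_sum]
      rcases n with _ | n
      · rw [hf.1]
        symm
        refine Finset.sum_eq_zero fun m _ => ?_
        rw [PowerSeries.coeff_monomial, if_neg (by omega)]
      · rw [Finset.sum_eq_single n]
        · rw [PowerSeries.coeff_monomial, if_pos rfl]
        · intro m _ hm
          rw [PowerSeries.coeff_monomial, if_neg (by omega)]
        · intro hn'
          exact absurd (Finset.mem_range.2 (by omega)) hn'
    rw [h1, Finset.mul_sum, Finset.sum_mul, map_sum]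
    refine Submodule.sum_mem _ fun m _ => ?_
    exact conj_monomial a ha m _ (hf.2 m) k

variable (x y) in
/-- The group of series with all the properties we need. -/
def Good (u : (PowerSeries R)ˣ) : Prop :=
  coeff 0 (u : PowerSeries R) = 1 ∧ LieS x y (D (u : PowerSeries R) * ((u⁻¹ : (PowerSeries R)ˣ) : PowerSeries R))
  ∧ (∀ f, LieS x y f → LieS x y ((u : PowerSeries R) * f * ((u⁻¹ : (PowerSeries R)ˣ) : PowerSeries R)))
  ∧ (∀ f, LieS x y f → LieS x y (((u⁻¹ : (PowerSeries R)ˣ) : PowerSeries R) * f * (u : PowerSeries R)))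

lemma Good.ex {α β : ℂ} : Good x y (exU (α • x + β • y)) := by
  have ha : ∀ (α β : ℂ), ∀ k, ∀ w ∈ L x y k, (α • x + β • y) * w - w * (α • x + β • y) ∈ L x y (k + 1) :=
    fun α β k w hw => brk_mem hw α β
  refine ⟨by simp, ?_, ?_, ?_⟩
  · rw [val_exU, val_inv_exU, D_ex, mul_assoc, mul_assoc, ex_mul_ex_neg, mul_one]
    refine ⟨by rw [PowerSeries.coeff_zero_X_mul], fun k => ?_⟩
    rw [PowerSeries.coeff_succ_X_mul, PowerSeries.coeff_C]
    split_ifs with h
    · subst h; exact lin_mem α β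
    · exact Submodule.zero_mem _
  · intro f hf
    exact hf.conj _ (ha α β)
  · intro f hf
    have e1 : -(α • x + β • y) = (-α) • x + (-β) • y := by rw [neg_smul, neg_smul]; abel
    have := hf.conj ((-α) • x + (-β) • y) (ha (-α) (-β))
    rw [← e1, neg_neg] at this
    exact this

lemma Good.mul {u v : (PowerSeries R)ˣ} (hu : Good x y u) (hv : Good x y v) : Good x y (u * v) := by
  obtain ⟨u1, u2, u3, u4⟩ := hu
  obtain ⟨v1, v2, v3, v4⟩ := hv
  refine ⟨?_, ?_, ?_, ?_⟩
  · rw [Units.val_mul, coeff_zero_mul', u1, v1, one_mul]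
  · have : D ((u * v : (PowerSeries R)ˣ) : PowerSeries R) * (((u * v)⁻¹ : (PowerSeries R)ˣ) : PowerSeries R)
        = D (u : PowerSeries R) * ((u⁻¹ : (PowerSeries R)ˣ) : PowerSeries R)
          + (u : PowerSeries R) * (D (v : PowerSeries R) * ((v⁻¹ : (PowerSeries R)ˣ) : PowerSeries R))
            * ((u⁻¹ : (PowerSeries R)ˣ) : PowerSeries R) := by
      rw [mul_inv_rev, Units.val_mul, Units.val_mul, D_mul, add_mul]
      congr 1
      · rw [mul_assoc, ← mul_assoc (v : PowerSeries R), Units.mul_inv, one_mul]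
      · simp only [mul_assoc]
    rw [this]
    exact u2.add (u3 _ v2)
  · intro f hf
    have := u3 _ (v3 _ hf)
    rw [mul_inv_rev, Units.val_mul, Units.val_mul]
    simpa only [mul_assoc] using this
  · intro f hf
    have := v4 _ (u4 _ hf)
    rw [mul_inv_rev, Units.val_mul, Units.val_mul]
    simpa only [mul_assoc] using this

lemma coeff_zero_inv {u : (PowerSeries R)ˣ} (h : coeff 0 (u : PowerSeries R) = 1) :
    coeff 0 ((u⁻¹ : (PowerSeries R)ˣ) : PowerSeries R) = 1 := by
  have h1 : coeff 0 ((u : PowerSeries R) * ((u⁻¹ : (PowerSeries R)ˣ) : PowerSeries R)) = 1 := by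
    simp
  rw [coeff_zero_mul', h, one_mul] at h1
  exact h1

lemma Good.inv {u : (PowerSeries R)ˣ} (hu : Good x y u) : Good x y u⁻¹ := by
  obtain ⟨u1, u2, u3, u4⟩ := hu
  refine ⟨coeff_zero_inv u1, ?_, ?_, ?_⟩
  · have h1 : D ((u⁻¹ : (PowerSeries R)ˣ) : PowerSeries R) * (u : PowerSeries R)
        = - (((u⁻¹ : (PowerSeries R)ˣ) : PowerSeries R) * (D (u : PowerSeries R)
            * ((u⁻¹ : (PowerSeries R)ˣ) : PowerSeries R)) * (u : PowerSeries R)) := by
      have h2 : D (((u⁻¹ : (PowerSeries R)ˣ) : PowerSeries R) * (u : PowerSeries R)) = 0 := by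
        rw [Units.inv_mul]; ext n
        rw [coeff_D, PowerSeries.coeff_one]
        split_ifs with h
        · subst h; simp
        · simp
      rw [D_mul] at h2
      rw [eq_neg_of_add_eq_zero_left h2]
      simp only [mul_assoc, Units.inv_mul, mul_one]
    rw [inv_inv, h1]
    exact (u4 _ u2).neg
  · intro f hf
    rw [inv_inv]; exact u4 f hf
  · intro f hf
    rw [inv_inv]; exact u3 f hf

/-- Two good series which agree up to degree `k` differ in degree `k+1` by a Lie polynomial. -/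
lemma Good.sub_mem {u v : (PowerSeries R)ˣ} (hu : Good x y u) (hv : Good x y v) {k : ℕ}
    (h : ∀ n ≤ k, coeff n (u : PowerSeries R) = coeff n (v : PowerSeries R)) :
    coeff (k + 1) (u : PowerSeries R) - coeff (k + 1) (v : PowerSeries R) ∈ L x y k := by
  set d := coeff (k + 1) (u : PowerSeries R) - coeff (k + 1) (v : PowerSeries R) with hd
  have h1 : Df (k + 1) d (u : PowerSeries R) (v : PowerSeries R) :=
    Df.of_coeff (fun n hn => h n (by omega)) (by rw [hd]; abel)
  have h2 := h1.mul_right ((v⁻¹ : (PowerSeries R)ˣ) : PowerSeries R)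
  rw [Units.mul_inv, coeff_zero_inv hv.1, mul_one, ← Units.val_mul] at h2
  have hg := (hu.mul hv.inv)
  set w := u * v⁻¹
  have h3 : coeff (k + 1) (D (w : PowerSeries R) * ((w⁻¹ : (PowerSeries R)ˣ) : PowerSeries R))
      = (((k + 1 : ℕ)) : ℂ) • d := by
    have h4 : Df (k + 1) ((((k + 1 : ℕ)) : ℂ) • d) (D (w : PowerSeries R)) 0 := by
      refine Df.of_coeff (fun n hn => ?_) ?_
      · rw [coeff_D, h2.coeff_lt hn, PowerSeries.coeff_one]
        split_ifs with h0
        · subst h0; simp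
        · simp
      · rw [coeff_D, h2.coeff_eq, PowerSeries.coeff_one, if_neg (by omega), zero_add, map_zero,
          zero_add]
    have h5 := h4.mul_right ((w⁻¹ : (PowerSeries R)ˣ) : PowerSeries R)
    rw [h5.coeff_eq, zero_mul, map_zero, zero_add, coeff_zero_inv hg.1, mul_one]
  have h6 := hg.2.1.2 k
  rw [h3] at h6
  have h7 := smul_mem h6 ((((k + 1 : ℕ)) : ℂ)⁻¹)
  rw [smul_smul, inv_mul_cancel₀ (by exact_mod_cast Nat.succ_ne_zero k), one_smul] at h7
  exact h7

end Pool.Agent.Y296.Split
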