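import Pool.Agent.Y296.Split.Lie

open PowerSeries Finset

set_option linter.unusedSectionVars false
set_option linter.unusedSimpArgs false

namespace Pool.Agent.Y296.Split

variable {R : Type*} [Ring R] [Algebra ℂ R]

/-- The product `e^{α₁ T x} e^{β₁ T y} ⋯ e^{α_k T x} e^{β_k T y}`. -/
noncomputable def ev (x y : R) (l : List (ℂ × ℂ)) : (PowerSeries R)ˣ :=
  (l.map fun p => exU (p.1 • x) * exU (p.2 • y)).prod

variable {x y : R}

@[simp] lemma ev_nil : ev x y [] = 1 := rfl

lemma ev_cons (p : ℂ × ℂ) (l : List (ℂ × ℂ)) :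
    ev x y (p :: l) = exU (p.1 • x) * exU (p.2 • y) * ev x y l := rfl

lemma ev_append (l m : List (ℂ × ℂ)) : ev x y (l ++ m) = ev x y l * ev x y m := by
  simp [ev]

lemma Good.ex_x (α : ℂ) : Good x y (exU (α • x)) := by
  have := Good.ex (x := x) (y := y) (α := α) (β := 0)
  simpa using this

lemma Good.ex_y (α : ℂ) : Good x y (exU (α • y)) := by
  have := Good.ex (x := x) (y := y) (α := 0) (β := α)
  simpa using this

lemma Good.one : Good x y (1 : (PowerSeries R)ˣ) := by
  have := Good.ex_x (x := x) (y := y) 0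
  simpa using this

lemma Good.ev (l : List (ℂ × ℂ)) : Good x y (ev x y l) := by
  induction l with
  | nil => exact Good.one
  | cons p l ih => rw [ev_cons]; exact ((Good.ex_x _).mul (Good.ex_y _)).mul ih

/-- Dilation. -/
noncomputable def dil (t : ℂ) (f : PowerSeries R) : PowerSeries R :=
  PowerSeries.mk fun n => t ^ n • coeff n f

@[simp] lemma coeff_dil (t : ℂ) (f : PowerSeries R) (n : ℕ) : coeff n (dil t f) = t ^ n • coeff n f := by
  simp [dil]

lemma dil_mul (t : ℂ) (f g : PowerSeries R) : dil t (f * g) = dil t f * dil t g := by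
  ext n
  rw [coeff_dil, coeff_mul, coeff_mul, Finset.smul_sum]
  refine Finset.sum_congr rfl fun p hp => ?_
  rw [Finset.HasAntidiagonal.mem_antidiagonal] at hp
  rw [coeff_dil, coeff_dil, smul_mul_assoc, mul_smul_comm, smul_smul, ← pow_add, hp]

lemma dil_one (t : ℂ) : dil t (1 : PowerSeries R) = 1 := by
  ext n
  rw [coeff_dil, PowerSeries.coeff_one]
  split_ifs with h
  · subst h; simp
  · simp

lemma dil_ex (t : ℂ) (a : R) : dil t (ex a) = ex (t • a) := by
  ext n
  rw [coeff_dil, coeff_ex, coeff_ex, smul_pow, smul_comm]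

/-- Scaling of lists. -/
noncomputable def sc (t : ℂ) (l : List (ℂ × ℂ)) : List (ℂ × ℂ) := l.map fun p => (t * p.1, t * p.2)

lemma ev_sc (t : ℂ) (l : List (ℂ × ℂ)) :
    ((ev x y (sc t l) : (PowerSeries R)ˣ) : PowerSeries R) = dil t (ev x y l : PowerSeries R) := by
  induction l with
  | nil => simp [sc, dil_one]
  | cons p l ih =>
    have : sc t (p :: l) = (t * p.1, t * p.2) :: sc t l := rfl
    rw [this, ev_cons, ev_cons, Units.val_mul, Units.val_mul, Units.val_mul, Units.val_mul, dil_mul,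
      dil_mul, ih]
    simp only [val_exU, dil_ex, mul_smul]

/-- the reversed list, which gives the inverse. -/
noncomputable def invl (l : List (ℂ × ℂ)) : List (ℂ × ℂ) :=
  (l.map fun p => [((0 : ℂ), -p.2), (-p.1, (0 : ℂ))]).reverse.flatten

lemma ev_invl (l : List (ℂ × ℂ)) : ev x y (invl l) = (ev x y l)⁻¹ := by
  induction l with
  | nil => simp [invl]
  | cons p l ih =>
    have : invl (p :: l) = invl l ++ [((0 : ℂ), -p.2), (-p.1, (0 : ℂ))] := by
      simp [invl]
    rw [this, ev_append, ih, ev_cons p l, mul_inv_rev, mul_inv_rev, ev_cons, ev_cons, ev_nil]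
    simp only [inv_exU, zero_smul, exU_zero, one_mul, mul_one, neg_smul]

variable (x y) in
/-- The group generated by the imaginary exponentials. -/
def IsH (u : (PowerSeries R)ˣ) : Prop :=
  ∃ l : List (ℂ × ℂ), (∀ p ∈ l, p.1.re = 0 ∧ p.2.re = 0) ∧ ev x y l = u

lemma IsH.one : IsH x y (1 : (PowerSeries R)ˣ) := ⟨[], by simp, rfl⟩

lemma IsH.mul {u v : (PowerSeries R)ˣ} (hu : IsH x y u) (hv : IsH x y v) : IsH x y (u * v) := by
  obtain ⟨l, hl, rfl⟩ := hu
  obtain ⟨m, hm, rfl⟩ := hv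
  refine ⟨l ++ m, ?_, ev_append l m⟩
  intro p hp
  rcases List.mem_append.1 hp with h | h
  · exact hl p h
  · exact hm p h

lemma IsH.inv {u : (PowerSeries R)ˣ} (hu : IsH x y u) : IsH x y u⁻¹ := by
  obtain ⟨l, hl, rfl⟩ := hu
  refine ⟨invl l, ?_, ev_invl l⟩
  intro p hp
  simp only [invl, List.mem_flatten, List.mem_reverse, List.mem_map] at hp
  obtain ⟨_, ⟨q, hq, rfl⟩, hp⟩ := hp
  have := hl q hq
  simp only [List.mem_cons, List.not_mem_nil, or_false] at hp
  rcases hp with rfl | rfl <;> simp [this.1, this.2]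

lemma IsH.ex_x : IsH x y (exU (Complex.I • x)) :=
  ⟨[(Complex.I, 0)], by simp, by simp [ev]⟩

lemma IsH.ex_y : IsH x y (exU (Complex.I • y)) :=
  ⟨[(0, Complex.I)], by simp, by simp [ev]⟩

lemma IsH.ex_x' (r : ℝ) : IsH x y (exU ((r : ℂ) • (Complex.I • x))) :=
  ⟨[(r * Complex.I, 0)], by simp, by simp [ev, mul_smul]⟩

lemma IsH.ex_y' (r : ℝ) : IsH x y (exU ((r : ℂ) • (Complex.I • y))) :=
  ⟨[(0, r * Complex.I)], by simp, by simp [ev, mul_smul]⟩

lemma IsH.dil {u : (PowerSeries R)ˣ} (hu : IsH x y u) (t : ℝ) :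
    ∃ v, IsH x y v ∧ ((v : (PowerSeries R)ˣ) : PowerSeries R) = dil (t : ℂ) (u : PowerSeries R) := by
  obtain ⟨l, hl, rfl⟩ := hu
  refine ⟨ev x y (sc t l), ⟨sc t l, ?_, rfl⟩, ev_sc _ _⟩
  intro p hp
  simp only [sc, List.mem_map] at hp
  obtain ⟨q, hq, rfl⟩ := hp
  have := hl q hq
  simp [this.1, this.2]

/-- leading term of a dilation. -/
lemma Df.dil {k : ℕ} {v : R} {f : PowerSeries R} (h : Df k v f 1) (t : ℂ) :
    Df k (t ^ k • v) (Split.dil t f) 1 := by
  refine Df.of_coeff (fun n hn => ?_) ?_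
  · rw [coeff_dil, h.coeff_lt hn, PowerSeries.coeff_one]
    split_ifs with h0
    · subst h0; simp
    · simp
  · rw [coeff_dil, h.coeff_eq, smul_add, PowerSeries.coeff_one]
    split_ifs with h0
    · subst h0; simp
    · simp

lemma Df.mul_one' {k : ℕ} (hk : 0 < k) {v w : R} {f g : PowerSeries R} (hf : Df k v f 1)
    (hg : Df k w g 1) : Df k (v + w) (f * g) 1 := by
  have h1 := hf.mul_right g
  rw [one_mul, hg.coeff_zero_one hk, mul_one] at h1
  exact h1.trans hg

lemma Df.inv_one {k : ℕ} (hk : 0 < k) {v : R} {u : (PowerSeries R)ˣ}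
    (hf : Df k v (u : PowerSeries R) 1) :
    Df k (-v) ((u⁻¹ : (PowerSeries R)ˣ) : PowerSeries R) 1 := by
  have h1 := hf.mul_right ((u⁻¹ : (PowerSeries R)ˣ) : PowerSeries R)
  rw [one_mul, Units.mul_inv, coeff_zero_inv (hf.coeff_zero_one hk), mul_one] at h1
  exact h1.symm

/-- the real vector space of leading terms of degree `k+1` of elements of the group `H`. -/
noncomputable def leadH (x y : R) (k : ℕ) : Submodule ℝ R where
  carrier := {v | ∃ u, IsH x y u ∧ Df (k + 1) v (u : PowerSeries R) 1}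
  zero_mem' := ⟨1, IsH.one, Df.refl _ _⟩
  add_mem' := by
    rintro v w ⟨u, hu, hu'⟩ ⟨u2, hu2, hu2'⟩
    exact ⟨u * u2, hu.mul hu2, by
      rw [Units.val_mul]; exact hu'.mul_one' (Nat.succ_pos k) hu2'⟩
  smul_mem' := by
    have pos : ∀ (r : ℝ), 0 ≤ r → ∀ v : R, (∃ u, IsH x y u ∧ Df (k + 1) v (u : PowerSeries R) 1) →
        (∃ u, IsH x y u ∧ Df (k + 1) (r • v) (u : PowerSeries R) 1) := by
      rintro r hr v ⟨u, hu, hu'⟩
      obtain ⟨w, hw, hw'⟩ := hu.dil (r ^ ((1 : ℝ) / ((k + 1 : ℕ) : ℝ)))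
      refine ⟨w, hw, ?_⟩
      rw [hw']
      refine (hu'.dil _).congr ?_
      have : ((r ^ ((1 : ℝ) / ((k + 1 : ℕ) : ℝ)) : ℝ)) ^ (k + 1) = r := by
        rw [one_div, Real.rpow_inv_natCast_pow hr (Nat.succ_ne_zero k)]
      rw [← Complex.ofReal_pow, this]
      rfl
    intro r v hv
    rcases le_total 0 r with hr | hr
    · exact pos r hr v hv
    · obtain ⟨u, hu, hu'⟩ := pos (-r) (by linarith) v hv
      refine ⟨u⁻¹, hu.inv, (hu'.inv_one (Nat.succ_pos k)).congr ?_⟩
      rw [neg_smul, neg_neg]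

lemma Fr_le_leadH (k : ℕ) : Fr x y k ≤ leadH x y k := by
  induction k with
  | zero =>
    rw [Fr, Submodule.span_le]
    intro w hw
    simp only [Set.mem_insert_iff, Set.mem_singleton_iff] at hw
    rcases hw with rfl | rfl
    · exact ⟨_, IsH.ex_x, Df_ex _⟩
    · exact ⟨_, IsH.ex_y, Df_ex _⟩
  | succ k ih =>
    have key : ∀ (w : R) (e : (PowerSeries R)ˣ), IsH x y e → Df 1 w (e : PowerSeries R) 1 →
        (Fr x y k).map (brk w) ≤ leadH x y (k + 1) := by
      intro w e he he'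
      rintro _ ⟨v, hv, rfl⟩
      obtain ⟨u, hu, hu'⟩ := ih hv
      refine ⟨u * e * u⁻¹ * e⁻¹, ((hu.mul he).mul hu.inv).mul he.inv, ?_⟩
      have h1 := (conj_lemma (Nat.succ_pos k) hu' he').mul_right ((e⁻¹ : (PowerSeries R)ˣ) : PowerSeries R)
      rw [Units.mul_inv, coeff_zero_inv (he'.coeff_zero_one one_pos), mul_one] at h1
      rw [Units.val_mul]
      exact h1
    rw [Fr]
    exact sup_le (key _ _ IsH.ex_x (Df_ex _)) (key _ _ IsH.ex_y (Df_ex _))

/-- The main algebraic statement, with exponents of nonnegative real part: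
`e^{x+y} = A e^x B e^y C` up to any order. -/
theorem main_closed (k : ℕ) : ∃ A B C : (PowerSeries R)ˣ, IsH x y A ∧ IsH x y B ∧ IsH x y C ∧
    Df (k + 1) 0 ((A * exU x * B * exU y * C : (PowerSeries R)ˣ) : PowerSeries R) (ex (x + y)) ∧
    ∀ E ∈ L x y (k + 1), ∃ A B C : (PowerSeries R)ˣ, IsH x y A ∧ IsH x y B ∧ IsH x y C ∧
    Df (k + 2) E ((A * exU x * B * exU y * C : (PowerSeries R)ˣ) : PowerSeries R) (ex (x + y)) := by
  -- one step
  have good_xy : Good x y (exU (x + y)) := by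
    have := Good.ex (x := x) (y := y) (α := 1) (β := 1)
    simpa using this
  have goodH : ∀ u, IsH x y u → Good x y u := by
    rintro u ⟨l, -, rfl⟩; exact Good.ev l
  have good_x : Good x y (exU x) := by simpa using Good.ex_x (x := x) (y := y) 1
  have good_y : Good x y (exU y) := by simpa using Good.ex_y (x := x) (y := y) 1
  have step : ∀ k : ℕ, (∃ A B C : (PowerSeries R)ˣ, IsH x y A ∧ IsH x y B ∧ IsH x y C ∧
      Df (k + 1) 0 ((A * exU x * B * exU y * C : (PowerSeries R)ˣ) : PowerSeries R) (ex (x + y))) →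
      ∀ E ∈ L x y (k + 1), ∃ A B C : (PowerSeries R)ˣ, IsH x y A ∧ IsH x y B ∧ IsH x y C ∧
      Df (k + 2) E ((A * exU x * B * exU y * C : (PowerSeries R)ˣ) : PowerSeries R) (ex (x + y)) := by
    rintro k ⟨A, B, C, hA, hB, hC, h⟩ E hE
    set P := A * exU x * B * exU y * C with hP
    have hPgood : Good x y P :=
      ((((goodH A hA).mul good_x).mul (goodH B hB)).mul good_y).mul (goodH C hC)
    set d := coeff (k + 2) (P : PowerSeries R) - coeff (k + 2) (ex (x + y)) with hd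
    have hd1 : Df (k + 2) d (P : PowerSeries R) (ex (x + y)) := h.to_succ
    have hdL : d ∈ L x y (k + 1) := by
      refine hPgood.sub_mem good_xy (k := k + 1) fun n hn => ?_
      exact hd1.coeff_lt (by omega)
    obtain ⟨f, hf, v₁, hv₁, v₂, hv₂, hdec⟩ := L_decomp (Submodule.sub_mem _ hE hdL)
    obtain ⟨u₁, hu₁, hu₁'⟩ := Fr_le_leadH k hv₁
    obtain ⟨u₂, hu₂, hu₂'⟩ := Fr_le_leadH k hv₂
    obtain ⟨w, hw, hw'⟩ := Fr_le_leadH (k + 1) hf
    refine ⟨A * u₁, u₁⁻¹ * B * u₂, u₂⁻¹ * C * w, hA.mul hu₁, (hu₁.inv.mul hB).mul hu₂,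
      (hu₂.inv.mul hC).mul hw, ?_⟩
    have hx1 : Df 1 x ((exU x : (PowerSeries R)ˣ) : PowerSeries R) 1 := Df_ex x
    have hy1 : Df 1 y ((exU y : (PowerSeries R)ˣ) : PowerSeries R) 1 := Df_ex y
    have c1 := conj_lemma (Nat.succ_pos k) hu₁' hx1
    have c2 := conj_lemma (Nat.succ_pos k) hu₂' hy1
    -- assemble
    have e0 : (A * u₁ * exU x * (u₁⁻¹ * B * u₂) * exU y * (u₂⁻¹ * C * w) : (PowerSeries R)ˣ)
        = A * (u₁ * exU x * u₁⁻¹) * B * (u₂ * exU y * u₂⁻¹) * C * w := by group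
    rw [e0]
    have zA : coeff 0 (A : PowerSeries R) = 1 := (goodH A hA).1
    have zB : coeff 0 (B : PowerSeries R) = 1 := (goodH B hB).1
    have zC : coeff 0 (C : PowerSeries R) = 1 := (goodH C hC).1
    have s1 : Df (k + 2) (v₁ * x - x * v₁) ((A * (u₁ * exU x * u₁⁻¹) : (PowerSeries R)ˣ) : PowerSeries R)
        ((A * exU x : (PowerSeries R)ˣ) : PowerSeries R) := by
      have := c1.mul_left (A : PowerSeries R)
      rw [zA, one_mul] at this
      exact this
    have s2 : Df (k + 2) (v₁ * x - x * v₁) ((A * (u₁ * exU x * u₁⁻¹) * B : (PowerSeries R)ˣ) : PowerSeries R)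
        ((A * exU x * B : (PowerSeries R)ˣ) : PowerSeries R) := by
      have := s1.mul_right (B : PowerSeries R)
      rw [zB, mul_one] at this
      exact this
    have z2 : coeff 0 ((A * (u₁ * exU x * u₁⁻¹) * B : (PowerSeries R)ˣ) : PowerSeries R) = 1 := by
      rw [s2.coeff_lt (by omega)]
      exact (((goodH A hA).mul good_x).mul (goodH B hB)).1
    have s3 : Df (k + 2) ((v₂ * y - y * v₂) + (v₁ * x - x * v₁))
        ((A * (u₁ * exU x * u₁⁻¹) * B * (u₂ * exU y * u₂⁻¹) : (PowerSeries R)ˣ) : PowerSeries R)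
        ((A * exU x * B * exU y : (PowerSeries R)ˣ) : PowerSeries R) := by
      have t1 := c2.mul_left ((A * (u₁ * exU x * u₁⁻¹) * B : (PowerSeries R)ˣ) : PowerSeries R)
      rw [z2, one_mul] at t1
      have t2 := s2.mul_right ((exU y : (PowerSeries R)ˣ) : PowerSeries R)
      rw [good_y.1, mul_one] at t2
      exact t1.trans t2
    have s4 : Df (k + 2) ((v₂ * y - y * v₂) + (v₁ * x - x * v₁))
        ((A * (u₁ * exU x * u₁⁻¹) * B * (u₂ * exU y * u₂⁻¹) * C : (PowerSeries R)ˣ) : PowerSeries R)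
        (P : PowerSeries R) := by
      have := s3.mul_right (C : PowerSeries R)
      rw [zC, mul_one] at this
      exact this
    have s5 : Df (k + 2) (f + ((v₂ * y - y * v₂) + (v₁ * x - x * v₁)))
        ((A * (u₁ * exU x * u₁⁻¹) * B * (u₂ * exU y * u₂⁻¹) * C * w : (PowerSeries R)ˣ) : PowerSeries R)
        (P : PowerSeries R) := by
      have t1 := hw'.mul_left ((A * (u₁ * exU x * u₁⁻¹) * B * (u₂ * exU y * u₂⁻¹) * C : (PowerSeries R)ˣ) : PowerSeries R)
      rw [s4.coeff_lt (by omega), hPgood.1, one_mul, mul_one] at t1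
      exact t1.trans s4
    refine (s5.trans hd1).congr ?_
    have : E = (E - d) + d := by abel
    rw [this, hdec]
    abel
  have base : ∀ k : ℕ, ∃ A B C : (PowerSeries R)ˣ, IsH x y A ∧ IsH x y B ∧ IsH x y C ∧
      Df (k + 1) 0 ((A * exU x * B * exU y * C : (PowerSeries R)ˣ) : PowerSeries R) (ex (x + y)) := by
    intro k
    induction k with
    | zero =>
      refine ⟨1, 1, 1, IsH.one, IsH.one, IsH.one, ?_⟩
      refine Df.of_coeff (fun n hn => ?_) ?_
      · have : n = 0 := by omega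
        subst this
        simp only [one_mul, mul_one, Units.val_mul, val_exU, coeff_zero_mul', coeff_ex]
        simp
      · simp only [one_mul, mul_one, Units.val_mul, val_exU, zero_add, PowerSeries.coeff_mul,
          add_zero]
        rw [Finset.Nat.antidiagonal_succ]
        simp
        abel
    | succ k ih =>
      obtain ⟨A, B, C, hA, hB, hC, h⟩ := step k ih 0 (Submodule.zero_mem _)
      exact ⟨A, B, C, hA, hB, hC, h⟩
  obtain ⟨A, B, C, hA, hB, hC, h⟩ := base k
  exact ⟨A, B, C, hA, hB, hC, h, step k (base k)⟩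

end Pool.Agent.Y296.Split
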