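import Pool.Agent.Y296.Split.Semi

open PowerSeries Finset Filter Topology
open scoped PowerSeries.WithPiTopology

set_option linter.unusedSectionVars false
set_option linter.unusedSimpArgs false

namespace Pool.Agent.Y296.Split

/-! ### Linear algebra: a dense set contains a positively spanning family -/

lemma cone_data {V : Type*} [AddCommGroup V] [Module ℝ V] [TopologicalSpace V]
    [IsTopologicalAddGroup V] [ContinuousSMul ℝ V] [T2Space V] [FiniteDimensional ℝ V]
    {S : Set V} (hS : Dense S) :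
    ∃ (n : ℕ) (b : Module.Basis (Fin n) ℝ V) (a0 : V) (lam : Fin n → ℝ),
      (∀ i, b i ∈ S) ∧ a0 ∈ S ∧ (∀ i, 0 < lam i) ∧ a0 + ∑ i, lam i • b i = 0 := by
  have hspan : Submodule.span ℝ S = ⊤ := by
    have hcl : IsClosed ((Submodule.span ℝ S : Submodule ℝ V) : Set V) :=
      Submodule.closed_of_finiteDimensional _
    rw [eq_top_iff]
    intro v _
    have : v ∈ closure S := hS v
    exact hcl.closure_subset_iff.2 Submodule.subset_span this
  obtain ⟨T, hTS, hTspan, hTli⟩ := exists_linearIndependent ℝ S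
  have hfin : Finite T := hTli.finite
  have hft : Fintype T := Fintype.ofFinite T
  let b0 : Module.Basis T ℝ V := Module.Basis.mk hTli (by
    rw [Subtype.range_coe, hTspan, hspan])
  let e : T ≃ Fin (Fintype.card T) := Fintype.equivFin T
  let b := b0.reindex e
  have hb : ∀ i, b i ∈ S := by
    intro i
    have : b i = ((e.symm i : T) : V) := by
      simp [b, b0]
    rw [this]
    exact hTS (e.symm i).2
  have hopen : IsOpen {v : V | ∀ i, b.coord i v < 0} := by
    rw [Set.ofPred_forall]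
    refine isOpen_iInter_of_finite fun i => ?_
    have : Continuous (b.coord i) := LinearMap.continuous_of_finiteDimensional _
    exact isOpen_lt this continuous_const
  have hne : ({v : V | ∀ i, b.coord i v < 0}).Nonempty := by
    refine ⟨-∑ i, b i, fun i => ?_⟩
    simp [map_neg, map_sum, Finsupp.single_apply]
  obtain ⟨a0, ha0U, ha0S⟩ := hS.inter_open_nonempty _ hopen hne
  refine ⟨_, b, a0, fun i => - b.coord i a0, hb, ha0S, fun i => ?_, ?_⟩
  · have := ha0U i
    linarith
  · have h1 : ∑ i, (b.coord i a0) • b i = a0 := b.sum_repr a0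
    simp only [neg_smul, Finset.sum_neg_distrib]
    rw [h1, add_neg_cancel]

variable {R : Type*} [Ring R] [Algebra ℂ R]

/-! ### Additivity of the exponential on a line -/

lemma eq_ex_of_D {c : R} {f : PowerSeries R} (h : D f = X * (C c * f)) (h0 : coeff 0 f = 1) :
    f = ex c := by
  ext n
  induction n with
  | zero => rw [h0]; simp
  | succ n ih =>
    have h1 := congrArg (coeff (n + 1)) h
    rw [coeff_D, PowerSeries.coeff_succ_X_mul, PowerSeries.coeff_C_mul, ih] at h1
    have h2 := congrArg (coeff (n + 1)) (D_ex c)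
    rw [coeff_D, PowerSeries.coeff_succ_X_mul, PowerSeries.coeff_C_mul] at h2
    rw [← h2] at h1
    have h3 : (((n + 1 : ℕ)) : ℂ) ≠ 0 := by exact_mod_cast Nat.succ_ne_zero n
    have h4 := congrArg (fun z => (((n + 1 : ℕ)) : ℂ)⁻¹ • z) h1
    simp only [smul_smul, inv_mul_cancel₀ h3, one_smul] at h4
    exact h4

lemma ex_add (s t : ℂ) (a : R) : ex ((s + t) • a) = ex (s • a) * ex (t • a) := by
  symm
  refine eq_ex_of_D ?_ (by rw [coeff_zero_mul']; simp)
  have hX : ∀ f : PowerSeries R, f * X = X * f := fun f => (PowerSeries.commute_X f).eq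
  have hc : ex (s • a) * C (t • a) = C (t • a) * ex (s • a) := by
    ext n
    rw [PowerSeries.coeff_C_mul, PowerSeries.coeff_mul_C, coeff_ex, smul_pow]
    simp only [mul_smul_comm, smul_mul_assoc, ← pow_succ, ← pow_succ']
    rw [smul_comm t, smul_comm t (s ^ n)]
  rw [D_mul, D_ex, D_ex]
  have e1 : ex (s • a) * (X * (C (t • a) * ex (t • a)))
      = X * (C (t • a) * (ex (s • a) * ex (t • a))) := by
    rw [← mul_assoc, hX, mul_assoc, ← mul_assoc (ex (s • a)), hc, mul_assoc]
  rw [e1, add_smul, map_add, add_mul, mul_add]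
  simp only [mul_assoc]

variable {x y : R}

/-- Products of scaled approximations. -/
def App (x y : R) (k : ℕ) (τ : ℝ) (a : R) (u : PowerSeries R) : Prop :=
  Df k a u (ex ((τ : ℂ) • (x + y)))

lemma App.mul {k : ℕ} (hk : 0 < k) {τ τ' : ℝ} {a a' : R} {u u' : PowerSeries R}
    (h : App x y k τ a u) (h' : App x y k τ' a' u') : App x y k (τ + τ') (a + a') (u * u') := by
  unfold App at *
  have h1 := h.mul_right u'
  rw [h'.coeff_lt hk] at h1
  have h2 := h'.mul_left (ex ((τ : ℂ) • (x + y)))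
  have h3 := h1.trans h2
  push_cast
  rw [ex_add]
  refine h3.congr ?_
  simp

lemma App.dil {k : ℕ} {τ : ℝ} {a : R} {u : PowerSeries R} (h : App x y k τ a u) (t : ℝ) :
    App x y k (t * τ) ((t ^ k : ℝ) • a) (Split.dil (t : ℂ) u) := by
  unfold App at *
  push_cast
  rw [mul_smul, ← dil_ex]
  refine Df.of_coeff (fun n hn => ?_) ?_
  · rw [coeff_dil, coeff_dil, h.coeff_lt hn]
  · rw [coeff_dil, coeff_dil, h.coeff_eq, smul_add]
    congr 1
    rw [← Complex.coe_smul]
    push_cast; rfl

lemma App.congr {k : ℕ} {τ τ' : ℝ} {a a' : R} {u : PowerSeries R} (h : App x y k τ a u)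
    (hτ : τ = τ') (ha : a = a') : App x y k τ' a' u := by subst hτ; subst ha; exact h

/-- concatenation of scaled lists. -/
noncomputable def comb (n : ℕ) (t : Fin n → ℝ) (s : Fin n → List (ℂ × ℂ)) : List (ℂ × ℂ) :=
  (List.ofFn fun i => sc (t i : ℂ) (s i)).flatten

lemma comb_succ (n : ℕ) (t : Fin (n + 1) → ℝ) (s : Fin (n + 1) → List (ℂ × ℂ)) :
    comb (n + 1) t s = sc (t 0 : ℂ) (s 0) ++ comb n (fun i => t i.succ) (fun i => s i.succ) := by
  simp [comb, List.ofFn_succ]

lemma App_comb (k : ℕ) (hk : 0 < k) (n : ℕ) (t : Fin n → ℝ) (s : Fin n → List (ℂ × ℂ))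
    (a : Fin n → R) (h : ∀ i, App x y k 1 (a i) (ev x y (s i) : PowerSeries R)) :
    App x y k (∑ i, t i) (∑ i, ((t i) ^ k : ℝ) • a i) (ev x y (comb n t s) : PowerSeries R) := by
  induction n with
  | zero =>
    simp only [comb, List.ofFn_zero, List.flatten_nil, ev_nil, Units.val_one]
    unfold App
    simp only [univ_eq_empty, sum_empty, Complex.ofReal_zero, zero_smul, ex_zero]
    exact Df.refl _ _
  | succ n ih =>
    rw [comb_succ, ev_append, Units.val_mul, Fin.sum_univ_succ, Fin.sum_univ_succ]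
    refine App.mul hk ?_ (ih _ _ _ fun i => h i.succ)
    rw [ev_sc]
    exact ((h 0).dil (t 0)).congr (mul_one _) rfl

/-- strict lists: all exponents have positive real part. -/
def Str (l : List (ℂ × ℂ)) : Prop := l ≠ [] ∧ ∀ p ∈ l, 0 < p.1.re ∧ 0 < p.2.re

lemma Str.sc {l : List (ℂ × ℂ)} (h : Str l) {t : ℝ} (ht : 0 < t) : Str (sc (t : ℂ) l) := by
  refine ⟨?_, ?_⟩
  · have := h.1
    simpa [Split.sc] using this
  · intro p hp
    simp only [Split.sc, List.mem_map] at hp
    obtain ⟨q, hq, rfl⟩ := hp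
    have := h.2 q hq
    simp [this.1, this.2, ht]

lemma Str.append {l m : List (ℂ × ℂ)} (h : Str l) (hm : ∀ p ∈ m, 0 < p.1.re ∧ 0 < p.2.re) :
    Str (l ++ m) := by
  refine ⟨?_, ?_⟩
  · have := h.1
    simp [this]
  · intro p hp
    rcases List.mem_append.1 hp with h' | h'
    · exact h.2 p h'
    · exact hm p h'

lemma pos_comb {n : ℕ} {t : Fin n → ℝ} {s : Fin n → List (ℂ × ℂ)} (ht : ∀ i, 0 < t i)
    (hs : ∀ i, Str (s i)) : ∀ p ∈ comb n t s, 0 < p.1.re ∧ 0 < p.2.re := by
  intro p hp
  simp only [comb, List.mem_flatten, List.mem_ofFn] at hp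
  obtain ⟨_, ⟨i, rfl⟩, hp⟩ := hp
  exact ((hs i).sc (ht i)).2 p hp

variable [TopologicalSpace R] [IsTopologicalRing R] [ContinuousSMul ℂ R] [T2Space R]

lemma tendsto_ex {ι : Type*} {F : Filter ι} {τ : ι → ℂ} {τ₀ : ℂ} (h : Tendsto τ F (𝓝 τ₀)) (a : R) :
    Tendsto (fun j => ex (τ j • a)) F (𝓝 (ex (τ₀ • a))) := by
  rw [PowerSeries.WithPiTopology.tendsto_iff_coeff_tendsto]
  intro n
  simp only [coeff_ex, smul_pow]
  exact ((h.pow n).smul_const _).const_smul _

lemma tendsto_dil {ι : Type*} {F : Filter ι} {t : ι → ℂ} {t₀ : ℂ} (h : Tendsto t F (𝓝 t₀))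
    {f : ι → PowerSeries R} {f₀ : PowerSeries R} (hf : Tendsto f F (𝓝 f₀)) :
    Tendsto (fun j => dil (t j) (f j)) F (𝓝 (dil t₀ f₀)) := by
  rw [PowerSeries.WithPiTopology.tendsto_iff_coeff_tendsto] at hf ⊢
  intro n
  simp only [coeff_dil]
  exact (h.pow n).smul (hf n)

lemma tendsto_ev_map {ι : Type*} {F : Filter ι} {g : ι → ℂ × ℂ → ℂ × ℂ}
    (hg : ∀ p, Tendsto (fun j => g j p) F (𝓝 p)) (l : List (ℂ × ℂ)) :
    Tendsto (fun j => (ev x y (l.map (g j)) : PowerSeries R)) F (𝓝 (ev x y l : PowerSeries R)) := by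
  induction l with
  | nil => simp only [List.map_nil]; exact tendsto_const_nhds
  | cons p l ih =>
    simp only [List.map_cons, ev_cons, Units.val_mul, val_exU]
    have h1 : Tendsto (fun j => (g j p).1) F (𝓝 p.1) := (continuous_fst.tendsto p).comp (hg p)
    have h2 : Tendsto (fun j => (g j p).2) F (𝓝 p.2) := (continuous_snd.tendsto p).comp (hg p)
    exact ((tendsto_ex h1 x).mul (tendsto_ex h2 y)).mul ih

lemma tendsto_comb {ι : Type*} {F : Filter ι} (n : ℕ) {t : ι → Fin n → ℝ}
    (ht : ∀ i, Tendsto (fun j => t j i) F (𝓝 0)) (s : Fin n → List (ℂ × ℂ)) :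
    Tendsto (fun j => (ev x y (comb n (t j) s) : PowerSeries R)) F (𝓝 1) := by
  induction n with
  | zero => simp only [comb, List.ofFn_zero, List.flatten_nil, ev_nil, Units.val_one]
            exact tendsto_const_nhds
  | succ n ih =>
    simp only [comb_succ, ev_append, Units.val_mul, ev_sc]
    have h0 : Tendsto (fun j => ((t j 0 : ℝ) : ℂ)) F (𝓝 ((0 : ℝ) : ℂ)) :=
      (Complex.continuous_ofReal.tendsto 0).comp (ht 0)
    have h1 := tendsto_dil h0 (tendsto_const_nhds (x := (ev x y (s 0) : PowerSeries R)) (f := F))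
    have h2 : dil ((0 : ℝ) : ℂ) (ev x y (s 0) : PowerSeries R) = 1 := by
      ext m
      rw [coeff_dil, PowerSeries.coeff_one]
      split_ifs with h
      · subst h; rw [(Good.ev (s 0)).1]; simp
      · simp [h]
    rw [h2] at h1
    have h3 := h1.mul (ih (t := fun j i => t j i.succ) (fun i => ht i.succ) (fun i => s i.succ))
    rw [one_mul] at h3
    exact h3

lemma coeff_one_ev (l : List (ℂ × ℂ)) : coeff 1 (ev x y l : PowerSeries R)
    = (l.map Prod.fst).sum • x + (l.map Prod.snd).sum • y := by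
  induction l with
  | nil => simp [PowerSeries.coeff_one]
  | cons p l ih =>
    have h1 : Df 1 (p.1 • x) ((exU (p.1 • x) : (PowerSeries R)ˣ) : PowerSeries R) 1 := Df_ex _
    have h2 : Df 1 (p.2 • y) ((exU (p.2 • y) : (PowerSeries R)ˣ) : PowerSeries R) 1 := Df_ex _
    have h3 : Df 1 (coeff 1 (ev x y l : PowerSeries R)) (ev x y l : PowerSeries R) 1 := by
      refine Df.of_coeff (fun n hn => ?_) (by simp [PowerSeries.coeff_one])
      have : n = 0 := by omega
      subst this
      rw [(Good.ev l).1]; simp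
    have h4 := (h1.mul_one' one_pos h2).mul_one' one_pos h3
    rw [ev_cons, Units.val_mul, Units.val_mul, h4.coeff_eq, ih]
    simp only [PowerSeries.coeff_one, one_ne_zero, if_false, List.map_cons, List.sum_cons, add_smul]
    abel

/-- perturbation of exponents. -/
noncomputable def pert (η : ℝ) (l : List (ℂ × ℂ)) : List (ℂ × ℂ) :=
  l.map fun p => ((1 - η) * p.1 + η / l.length, (1 - η) * p.2 + η / l.length)

lemma sum_map_aff (a b : ℂ) (l : List ℂ) :
    (l.map fun z => a * z + b).sum = a * l.sum + l.length * b := by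
  induction l with
  | nil => simp
  | cons z l ih => simp only [List.map_cons, List.sum_cons, ih, List.length_cons]; push_cast; ring

lemma pert_str {l : List (ℂ × ℂ)} (hne : l ≠ []) (hl : ∀ p ∈ l, 0 ≤ p.1.re ∧ 0 ≤ p.2.re)
    {η : ℝ} (h0 : 0 < η) (h1 : η ≤ 1) : Str (pert η l) := by
  have hlen : 0 < (l.length : ℝ) := by exact_mod_cast List.length_pos_iff.2 hne
  refine ⟨by simpa [pert] using hne, ?_⟩
  intro p hp
  simp only [pert, List.mem_map] at hp
  obtain ⟨q, hq, rfl⟩ := hp
  have hq' := hl q hq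
  have e1 : ∀ z : ℂ, ((1 - (η : ℂ)) * z + (η : ℂ) / (l.length : ℂ)).re
      = (1 - η) * z.re + η / l.length := by
    intro z
    have a1 : (1 - (η : ℂ)) = ((1 - η : ℝ) : ℂ) := by push_cast; ring
    have a2 : (η : ℂ) / (l.length : ℂ) = ((η / l.length : ℝ) : ℂ) := by push_cast; ring
    rw [a1, a2, Complex.add_re, Complex.re_ofReal_mul, Complex.ofReal_re]
  simp only [e1]
  have h3 : 0 < η / l.length := by positivity
  have h4 : 0 ≤ 1 - η := by linarith
  constructor
  · have := mul_nonneg h4 hq'.1; linarith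
  · have := mul_nonneg h4 hq'.2; linarith

lemma coeff_one_pert {l : List (ℂ × ℂ)} (hne : l ≠ []) (η : ℝ)
    (h : coeff 1 (ev x y l : PowerSeries R) = x + y) :
    coeff 1 (ev x y (pert η l) : PowerSeries R) = x + y := by
  have hlen : (l.length : ℂ) ≠ 0 := by
    exact_mod_cast (List.length_pos_iff.2 hne).ne'
  rw [coeff_one_ev] at h ⊢
  have e1 : ((pert η l).map Prod.fst).sum = (1 - η) * (l.map Prod.fst).sum + η := by
    have : (pert η l).map Prod.fst = (l.map Prod.fst).map fun z => (1 - (η : ℂ)) * z + η / l.length := by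
      simp [pert, List.map_map, Function.comp_def]
    rw [this, sum_map_aff]
    simp only [List.length_map]
    field_simp
  have e2 : ((pert η l).map Prod.snd).sum = (1 - η) * (l.map Prod.snd).sum + η := by
    have : (pert η l).map Prod.snd = (l.map Prod.snd).map fun z => (1 - (η : ℂ)) * z + η / l.length := by
      simp [pert, List.map_map, Function.comp_def]
    rw [this, sum_map_aff]
    simp only [List.length_map]
    field_simp
  rw [e1, e2]
  have : ((1 - (η : ℂ)) * (l.map Prod.fst).sum + η) • x + ((1 - (η : ℂ)) * (l.map Prod.snd).sum + η) • y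
      = (1 - (η : ℂ)) • ((l.map Prod.fst).sum • x + (l.map Prod.snd).sum • y) + (η : ℂ) • (x + y) := by
    simp only [add_smul, smul_add, mul_smul]; abel
  rw [this, h, ← add_smul]
  simp

lemma tendsto_pert (l : List (ℂ × ℂ)) {ι : Type*} {F : Filter ι} {η : ι → ℝ}
    (h : Tendsto η F (𝓝 0)) :
    Tendsto (fun j => (ev x y (pert (η j) l) : PowerSeries R)) F (𝓝 (ev x y l : PowerSeries R)) := by
  refine tendsto_ev_map (g := fun j p => ((1 - (η j : ℂ)) * p.1 + (η j : ℂ) / l.length,
    (1 - (η j : ℂ)) * p.2 + (η j : ℂ) / l.length)) (fun p => ?_) l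
  have h0 : Tendsto (fun j => (η j : ℂ)) F (𝓝 ((0 : ℝ) : ℂ)) :=
    (Complex.continuous_ofReal.tendsto 0).comp h
  rw [Complex.ofReal_zero] at h0
  have key : ∀ z : ℂ, Tendsto (fun j => (1 - (η j : ℂ)) * z + (η j : ℂ) / l.length) F (𝓝 z) := by
    intro z
    have := (((tendsto_const_nhds (x := (1 : ℂ))).sub h0).mul_const z).add (h0.div_const (l.length : ℂ))
    simpa using this
  exact (key p.1).prodMk_nhds (key p.2)

end Pool.Agent.Y296.Split
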