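import Pool.Agent.Y296.Split.Exist

open PowerSeries Finset Filter Topology

set_option linter.unusedSectionVars false
set_option linter.unusedSimpArgs false

namespace Pool.Agent.Y296.Split

/-- The free associative algebra on two letters. -/
abbrev FA : Type := MonoidAlgebra ℂ (FreeMonoid Bool)

/-- The topology of convergence of all coefficients. -/
@[reducible] noncomputable def topFA : TopologicalSpace FA :=
  TopologicalSpace.induced (fun (f : FA) (w : FreeMonoid Bool) => f.coeff w) inferInstance

/-- The finite set of factorisations of a word. -/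
lemma exists_splits (w : FreeMonoid Bool) : ∃ s : Finset (FreeMonoid Bool × FreeMonoid Bool),
    ∀ p, p ∈ s ↔ p.1 * p.2 = w := by
  classical
  let g : ℕ → FreeMonoid Bool × FreeMonoid Bool := fun n =>
    (FreeMonoid.ofList (w.toList.take n), FreeMonoid.ofList (w.toList.drop n))
  refine ⟨(Finset.range (w.toList.length + 1)).image g, fun p => ?_⟩
  rw [Finset.mem_image]
  constructor
  · rintro ⟨n, -, rfl⟩
    apply FreeMonoid.toList.injective
    simp [g]
  · rintro rfl
    refine ⟨p.1.toList.length, ?_, ?_⟩
    · rw [Finset.mem_range, FreeMonoid.toList_mul, List.length_append]; omega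
    · simp [g, FreeMonoid.toList_mul]

lemma fa_continuous_coeff (w : FreeMonoid Bool) : @Continuous FA ℂ topFA _ (fun f => f.coeff w) := by
  let := topFA
  have h : Continuous (fun (f : FA) (w : FreeMonoid Bool) => f.coeff w) := continuous_induced_dom
  exact (continuous_apply w).comp h

lemma fa_ring : @IsTopologicalRing FA topFA _ := by
  let := topFA
  have hc := fa_continuous_coeff
  refine { continuous_add := ?_, continuous_mul := ?_, continuous_neg := ?_ }
  · refine continuous_induced_rng.2 (continuous_pi fun w => ?_)
    have : Continuous fun p : FA × FA => p.1.coeff w + p.2.coeff w :=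
      ((hc w).comp continuous_fst).add ((hc w).comp continuous_snd)
    exact this
  · refine continuous_induced_rng.2 (continuous_pi fun w => ?_)
    obtain ⟨s, hs⟩ := exists_splits w
    have e : (fun p : FA × FA => (p.1 * p.2).coeff w)
        = fun p : FA × FA => ∑ q ∈ s, p.1.coeff q.1 * p.2.coeff q.2 := by
      funext p
      exact MonoidAlgebra.coeff_mul_antidiag p.1 p.2 w s (fun {q} => hs q)
    have : Continuous fun p : FA × FA => (p.1 * p.2).coeff w := by
      rw [e]
      exact continuous_finsetSum _ fun q _ =>
        ((hc q.1).comp continuous_fst).mul ((hc q.2).comp continuous_snd)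
    exact this
  · refine continuous_induced_rng.2 (continuous_pi fun w => ?_)
    have : Continuous fun p : FA => -(p.coeff w) := (hc w).neg
    exact this

lemma fa_smul : @ContinuousSMul ℂ FA _ _ topFA := by
  let := topFA
  have hc := fa_continuous_coeff
  refine ⟨continuous_induced_rng.2 (continuous_pi fun w => ?_)⟩
  have : Continuous fun p : ℂ × FA => p.1 * (p.2.coeff w) :=
    continuous_fst.mul ((hc w).comp continuous_snd)
  exact this

lemma fa_t2 : @T2Space FA topFA := by
  let := topFA
  have hinj : Function.Injective (fun (f : FA) (w : FreeMonoid Bool) => f.coeff w) := by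
    intro f g h
    apply MonoidAlgebra.coeff_injective
    ext w
    exact congrFun h w
  exact T2Space.of_injective_continuous hinj continuous_induced_dom

/-- the two letters -/
noncomputable def xF : FA := MonoidAlgebra.single (FreeMonoid.of true) 1
noncomputable def yF : FA := MonoidAlgebra.single (FreeMonoid.of false) 1

lemma exists_FA (N : ℕ) : ∃ l : List (ℂ × ℂ), Str l ∧
    ∀ n ≤ N, coeff n (ev xF yF l : PowerSeries FA) = coeff n (ex (xF + yF)) := by
  let := topFA
  have := fa_ring
  have := fa_smul
  have := fa_t2
  exact exists_strict N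

section Map

variable {R S : Type*} [Ring R] [Algebra ℂ R] [Ring S] [Algebra ℂ S]

lemma coeff_map_mul (φ : R →ₐ[ℂ] S) (f g : PowerSeries R) (F G : PowerSeries S)
    (hf : ∀ n, coeff n F = φ (coeff n f)) (hg : ∀ n, coeff n G = φ (coeff n g)) (n : ℕ) :
    coeff n (F * G) = φ (coeff n (f * g)) := by
  rw [PowerSeries.coeff_mul, PowerSeries.coeff_mul, map_sum]
  refine Finset.sum_congr rfl fun p _ => ?_
  rw [hf, hg, map_mul]

lemma coeff_map_ex (φ : R →ₐ[ℂ] S) (a : R) (n : ℕ) : coeff n (ex (φ a)) = φ (coeff n (ex a)) := by
  rw [coeff_ex, coeff_ex, map_smul, map_pow]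

lemma coeff_map_ev (φ : R →ₐ[ℂ] S) (x y : R) (l : List (ℂ × ℂ)) :
    ∀ n, coeff n (ev (φ x) (φ y) l : PowerSeries S) = φ (coeff n (ev x y l : PowerSeries R)) := by
  induction l with
  | nil =>
    intro n
    simp only [ev_nil, Units.val_one, PowerSeries.coeff_one]
    split_ifs <;> simp
  | cons p l ih =>
    rw [ev_cons, ev_cons]
    simp only [Units.val_mul, val_exU]
    refine coeff_map_mul φ _ _ _ _ (coeff_map_mul φ _ _ _ _ ?_ ?_) ih
    · intro n; rw [← map_smul, coeff_map_ex]
    · intro n; rw [← map_smul, coeff_map_ex]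

end Map

/-- **Universal existence.** -/
theorem exists_universal (N : ℕ) : ∃ l : List (ℂ × ℂ), Str l ∧
    ∀ (R : Type) [Ring R] [Algebra ℂ R] (x y : R), ∀ n ≤ N,
      coeff n (ev x y l : PowerSeries R) = coeff n (ex (x + y)) := by
  obtain ⟨l, hl, h⟩ := exists_FA N
  refine ⟨l, hl, ?_⟩
  intro R _ _ x y n hn
  let F : FreeMonoid Bool →* R := FreeMonoid.lift fun b => if b then x else y
  let φ : FA →ₐ[ℂ] R := MonoidAlgebra.lift ℂ R (FreeMonoid Bool) F
  have hx : φ xF = x := by simp [φ, xF, F]
  have hy : φ yF = y := by simp [φ, yF, F]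
  have h1 := coeff_map_ev φ xF yF l n
  rw [hx, hy, h n hn, ← coeff_map_ex, map_add, hx, hy] at h1
  exact h1

end Pool.Agent.Y296.Split
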